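import Mathlib

/-!
# The Shea-Sons deficiency inequality in the unit disc with the factor two deleted

For every non-constant meromorphic function `f` on the unit disc, of finite order `ρ`,
`∑_a δ(a,f) ≤ (1 + k(f)) δ(0,f') + (ρ + 1) / λ(f)`.

The first section holds the definitions of Nevanlinna theory in the disc which the statement uses;
the theorem `result` is at the end of the file.
-/

namespace Pool.Agent.Results.MP_99dc29_an.SheaSons

section Definitions

open Metric Real Filter Topology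
open scoped ENNReal

/-- Multiplicity of the point `z` as a pole of the meromorphic function `g`
(zero if `z` is not a pole). -/
noncomputable def poleMult (g : ℂ → ℂ) (z : ℂ) : ℕ := (-(meromorphicOrderAt g z).untop₀).toNat

/-- Integrated counting function of points of the disc, the point `z` being counted `d z` times:
`∑_{0 < |z| ≤ r} d(z) log (r/|z|) + d(0) log r`.
(The term of the sum with `z = 0` is zero, because `Real.log 0 = 0`.) -/
noncomputable def intCount (d : ℂ → ℕ) (r : ℝ) : ℝ :=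
  (∑ᶠ z ∈ closedBall (0:ℂ) r, (d z : ℝ) * Real.log (r * ‖z‖⁻¹)) + (d 0 : ℝ) * Real.log r

/-- The proximity function `m(r,∞,g)`: the average of `log⁺ |g|` over the circle `|z| = r`. -/
noncomputable def proxInf (g : ℂ → ℂ) (r : ℝ) : ℝ := circleAverage (fun z ↦ log⁺ ‖g z‖) 0 r

/-- The proximity function `m(r,a,g)` at a finite value `a`: the average of `log⁺ (1/|g - a|)`
over the circle `|z| = r`. -/
noncomputable def prox (a : ℂ) (g : ℂ → ℂ) (r : ℝ) : ℝ := circleAverage (fun z ↦ log⁺ ‖g z - a‖⁻¹) 0 r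

/-- The Nevanlinna characteristic `T(r,g) = m(r,∞,g) + N(r,∞,g)`. -/
noncomputable def charT (g : ℂ → ℂ) (r : ℝ) : ℝ := proxInf g r + intCount (poleMult g) r

/-- The integrated counting function `N̄(r,∞,g)` of the distinct poles: each pole is counted once. -/
noncomputable def countBar (g : ℂ → ℂ) (r : ℝ) : ℝ := intCount (fun z ↦ min 1 (poleMult g z)) r

/-- The order `ρ = limsup log⁺ T(r,f) / log (1/(1-r))` as `r → 1` from the left. -/
noncomputable def growthOrder (f : ℂ → ℂ) : ℝ≥0∞ :=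
  limsup (fun r : ℝ ↦ ENNReal.ofReal (log⁺ (charT f r) / Real.log (1 / (1 - r)))) (𝓝[<] 1)

/-- The number `λ(f) = liminf T(r,f) / log (1/(1-r))` as `r → 1` from the left. -/
noncomputable def lowerGrowth (f : ℂ → ℂ) : ℝ≥0∞ :=
  liminf (fun r : ℝ ↦ ENNReal.ofReal (charT f r / Real.log (1 / (1 - r)))) (𝓝[<] 1)

/-- The number `k(f) = limsup N̄(r,∞,f) / (1 + T(r,f))` as `r → 1` from the left. -/
noncomputable def poleIndex (f : ℂ → ℂ) : ℝ≥0∞ :=
  limsup (fun r : ℝ ↦ ENNReal.ofReal (countBar f r / (1 + charT f r))) (𝓝[<] 1)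

/-- The deficiency `δ(a,f) = liminf m(r,a,f) / T(r,f)` as `r → 1` from the left. -/
noncomputable def deficiency (a : ℂ) (f : ℂ → ℂ) : ℝ≥0∞ :=
  liminf (fun r : ℝ ↦ ENNReal.ofReal (prox a f r / charT f r)) (𝓝[<] 1)

end Definitions

section Part_LDL1

open Complex Metric Real Filter Topology MeromorphicOn Set

/-- Schwarz type formula: for `h` analytic and zero free on a closed disc, the logarithmic
derivative is given by an integral of `log ‖h‖` over the boundary circle. -/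
lemma logDeriv_eq_circleAverage {h : ℂ → ℂ} {R : ℝ} (hR : 0 < R)
    (h1 : AnalyticOnNhd ℂ h (closedBall 0 R)) (h2 : ∀ u ∈ closedBall (0:ℂ) R, h u ≠ 0)
    {w : ℂ} (hw : w ∈ ball (0:ℂ) R) :
    logDeriv h w = circleAverage (fun ζ ↦ (2 * ζ / (ζ - w) ^ 2) • ((Real.log ‖h ζ‖ : ℝ) : ℂ)) 0 R := by
  set g : ℂ → ℝ := fun ζ ↦ Real.log ‖h ζ‖ with hg
  have hcont : ContinuousOn g (closedBall 0 R) := by
    intro z hz
    have hc : ContinuousAt h z := (h1 z hz).continuousAt
    exact (ContinuousAt.log hc.norm (by simpa using h2 z hz)).continuousWithinAt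
  have hgi : CircleIntegrable g 0 R :=
    (hcont.mono sphere_subset_closedBall).circleIntegrable hR.le
  have hgi' : CircleIntegrable (fun ζ ↦ (g ζ : ℂ)) 0 R :=
    (Complex.continuous_ofReal.comp_continuousOn
      (hcont.mono sphere_subset_closedBall)).circleIntegrable hR.le
  set H : ℂ → ℂ := fun w ↦ circleAverage (fun ζ ↦ herglotzRieszKernel 0 w ζ • (g ζ : ℂ)) 0 R with hH
  have hHan : AnalyticOnNhd ℂ H (ball 0 R) := analyticOnNhd_circleAverage_herglotzRieszKernel_smul hgi'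
  have hHre : ∀ z ∈ ball (0:ℂ) R, (H z).re = g z := by
    intro z hz
    have e1 := re_circleAverage_herglotzRieszKernel_smul hgi hz
    have e2 : circleAverage ((Complex.re ∘ herglotzRieszKernel 0 z) • g) 0 R = g z := by
      apply InnerProductSpace.HarmonicOnNhd.circleAverage_re_herglotzRieszKernel_smul _ hz
      intro x hx
      exact (h1 x hx).harmonicAt_log_norm (h2 x hx)
    rw [← e2, ← e1]
  -- `G = h * exp (-H)` has norm one
  set G : ℂ → ℂ := fun z ↦ h z * Complex.exp (-(H z)) with hG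
  have hGan : AnalyticOnNhd ℂ G (ball 0 R) := by
    intro z hz
    have a1 := h1 z (ball_subset_closedBall hz)
    have a2 := hHan z hz
    exact a1.mul (a2.neg.cexp)
  have hGnorm : ∀ z ∈ ball (0:ℂ) R, ‖G z‖ = 1 := by
    intro z hz
    have hz' := h2 z (ball_subset_closedBall hz)
    have : 0 < ‖h z‖ := norm_pos_iff.mpr hz'
    simp only [hG, norm_mul, Complex.norm_exp, neg_re, hHre z hz, hg]
    rw [Real.exp_neg, Real.exp_log this, mul_inv_cancel₀ this.ne']
  have hGconst : EqOn G (Function.const ℂ (G w)) (ball 0 R) := by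
    apply Complex.eqOn_of_isPreconnected_of_isMaxOn_norm
      (convex_ball (0:ℂ) R).isPreconnected isOpen_ball
      (hGan.differentiableOn) hw
    intro z hz
    simp only [Function.comp_apply, mem_ofPred_eq]
    rw [hGnorm z hz, hGnorm w hw]
  have hev : h =ᶠ[𝓝 w] fun z ↦ G w * Complex.exp (H z) := by
    filter_upwards [isOpen_ball.mem_nhds hw] with z hz
    have := hGconst hz
    simp only [Function.const_apply] at this
    rw [← this]
    simp only [hG]
    rw [mul_assoc, ← Complex.exp_add]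
    simp
  have hHd : HasDerivAt H (circleAverage (fun ζ ↦ (2 * ζ / (ζ - w) ^ 2) • (g ζ : ℂ)) 0 R) w :=
    hasDerivAt_circleAverage_herglotzRieszKernel_smul hgi' hw
  have hGw : G w ≠ 0 := by
    rw [← norm_pos_iff, hGnorm w hw]; norm_num
  have hd : HasDerivAt h (G w * (Complex.exp (H w) *
      circleAverage (fun ζ ↦ (2 * ζ / (ζ - w) ^ 2) • (g ζ : ℂ)) 0 R)) w := by
    have := (hHd.cexp).const_mul (G w)
    exact this.congr_of_eventuallyEq hev
  rw [logDeriv_apply, hd.deriv, hev.eq_of_nhds]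
  field_simp [Complex.exp_ne_zero]
  rfl

end Part_LDL1

section Part_LDL2

open Complex Metric Real Filter Topology MeromorphicOn Set

lemma circleAverage_inv_normSq {R r : ℝ} (hr : 0 < r) (hrR : r < R) {ζ : ℂ} (hζ : ‖ζ‖ = R) :
    circleAverage (fun w ↦ (‖ζ - w‖ ^ 2)⁻¹) 0 r = (R ^ 2 - r ^ 2)⁻¹ := by
  have hne : ∀ w ∈ closedBall (0:ℂ) r, ζ - w ≠ 0 := by
    intro w hw h
    have : ζ = w := sub_eq_zero.mp h
    simp only [mem_closedBall, dist_zero_right] at hw
    rw [← this, hζ] at hw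
    linarith
  have hd : DiffContOnCl ℂ (fun w ↦ (ζ + w) / (ζ - w)) (ball 0 |r|) := by
    rw [abs_of_pos hr]
    apply DifferentiableOn.diffContOnCl
    rw [closure_ball 0 hr.ne']
    intro w hw
    have := hne w hw
    exact (by fun_prop (disch := assumption) : DifferentiableAt ℂ (fun w ↦ (ζ + w) / (ζ - w)) w).differentiableWithinAt
  have h1 := hd.circleAverage
  have hζ0 : ζ ≠ 0 := by
    intro h; rw [h, norm_zero] at hζ; linarith
  simp only [add_zero, sub_zero, div_self hζ0] at h1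
  have hci : CircleIntegrable (fun w ↦ (ζ + w) / (ζ - w)) 0 r := by
    apply ContinuousOn.circleIntegrable hr.le
    intro w hw
    have := hne w (sphere_subset_closedBall hw)
    exact (by fun_prop (disch := assumption) : ContinuousAt (fun w ↦ (ζ + w) / (ζ - w)) w).continuousWithinAt
  have h2 := reCLM.circleAverage_comp_comm hci
  rw [h1] at h2
  have h3 : circleAverage (fun w ↦ (R ^ 2 - r ^ 2) • (‖ζ - w‖ ^ 2)⁻¹) 0 r = 1 := by
    rw [← (by simp : reCLM (1:ℂ) = 1), ← h2]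
    apply circleAverage_congr_sphere
    intro w hw
    rw [abs_of_pos hr, mem_sphere_zero_iff_norm] at hw
    simp only [Function.comp_apply, reCLM_apply, smul_eq_mul]
    rw [Complex.div_re, ← hζ, ← hw]
    rw [← Complex.normSq_eq_norm_sq, ← Complex.normSq_eq_norm_sq, ← Complex.normSq_eq_norm_sq]
    have h0 : Complex.normSq (ζ - w) ≠ 0 := by
      rw [Complex.normSq_eq_zero.ne]
      exact hne w (by simp [hw])
    field_simp
    simp only [Complex.normSq_apply, add_re, sub_re, add_im, sub_im]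
    ring
  rw [circleAverage_fun_smul, smul_eq_mul] at h3
  have h4 : R ^ 2 - r ^ 2 ≠ 0 := by nlinarith
  exact eq_inv_of_mul_eq_one_right h3

/-- Average over the circle of radius `r` of the modulus of the logarithmic derivative of a
zero free function. -/
lemma circleAverage_norm_logDeriv_le {h : ℂ → ℂ} {r R : ℝ} (hr : 0 < r) (hrR : r < R)
    (h1 : AnalyticOnNhd ℂ h (closedBall 0 R)) (h2 : ∀ u ∈ closedBall (0:ℂ) R, h u ≠ 0) :
    circleAverage (fun w ↦ ‖logDeriv h w‖) 0 r ≤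
      2 / (R - r) * circleAverage (fun ζ ↦ |Real.log ‖h ζ‖|) 0 R := by
  have hR : 0 < R := hr.trans hrR
  set φ : ℂ → ℝ := fun ζ ↦ |Real.log ‖h ζ‖| with hφ
  have hφcont : ContinuousOn φ (closedBall 0 R) := by
    intro z hz
    have hc : ContinuousAt h z := (h1 z hz).continuousAt
    exact (ContinuousAt.log hc.norm (by simpa using h2 z hz)).abs.continuousWithinAt
  -- step 1: pointwise bound
  have hpt : ∀ w ∈ sphere (0:ℂ) |r|, ‖logDeriv h w‖ ≤
      circleAverage (fun ζ ↦ (2 * R * (‖ζ - w‖ ^ 2)⁻¹) * φ ζ) 0 R := by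
    intro w hw
    rw [abs_of_pos hr, mem_sphere_zero_iff_norm] at hw
    have hwb : w ∈ ball (0:ℂ) R := by simp [hw, hrR]
    rw [logDeriv_eq_circleAverage hR h1 h2 hwb]
    rw [circleAverage_def, circleAverage_def, norm_smul]
    rw [Real.norm_of_nonneg (by positivity), smul_eq_mul]
    apply mul_le_mul_of_nonneg_left _ (by positivity)
    refine (intervalIntegral.norm_integral_le_integral_norm (by positivity)).trans (le_of_eq ?_)
    apply intervalIntegral.integral_congr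
    intro θ _
    simp only [norm_smul, norm_div, norm_mul, norm_pow, Complex.norm_ofNat, norm_circleMap_zero,
      abs_of_pos hR, Complex.norm_real, hφ, Real.norm_eq_abs]
    rw [div_eq_mul_inv]
  -- continuity of the kernel
  have hKcont : Continuous (fun p : ℝ × ℝ ↦ (2 * R * (‖circleMap 0 R p.2 - circleMap 0 r p.1‖ ^ 2)⁻¹)
      * φ (circleMap 0 R p.2)) := by
    have hne : ∀ p : ℝ × ℝ, ‖circleMap 0 R p.2 - circleMap 0 r p.1‖ ^ 2 ≠ 0 := by
      intro p hp
      have : circleMap 0 R p.2 - circleMap 0 r p.1 = 0 := by simpa using hp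
      have h3 : ‖circleMap 0 R p.2‖ = ‖circleMap 0 r p.1‖ := by rw [sub_eq_zero.mp this]
      rw [norm_circleMap_zero, norm_circleMap_zero, abs_of_pos hR, abs_of_pos hr] at h3
      linarith
    have c1 : Continuous (fun p : ℝ × ℝ ↦ φ (circleMap 0 R p.2)) := by
      apply hφcont.comp_continuous (by fun_prop)
      intro p
      simp [abs_of_pos hR]
    apply Continuous.mul _ c1
    apply Continuous.mul continuous_const
    apply Continuous.inv₀ _ hne
    fun_prop
  -- step 2: swap the averages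
  have hswap : circleAverage (fun w ↦ circleAverage (fun ζ ↦ (2 * R * (‖ζ - w‖ ^ 2)⁻¹) * φ ζ) 0 R) 0 r
      = circleAverage (fun ζ ↦ circleAverage (fun w ↦ (2 * R * (‖ζ - w‖ ^ 2)⁻¹) * φ ζ) 0 r) 0 R := by
    simp only [circleAverage_def, intervalIntegral.integral_smul, smul_smul]
    congr 1
    apply MeasureTheory.intervalIntegral_intervalIntegral_swap
    refine (hKcont.continuousOn.integrableOn_compact (K := Icc 0 (2*π) ×ˢ Icc 0 (2*π))
      (isCompact_Icc.prod isCompact_Icc)).mono_set ?_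
    intro p hp
    simp only [mem_prod, uIoc_of_le (by positivity : 0 ≤ 2 * π), mem_Ioc] at hp
    exact ⟨⟨hp.1.1.le, hp.1.2⟩, ⟨hp.2.1.le, hp.2.2⟩⟩
  -- step 3: evaluate the inner average
  have hinner : circleAverage (fun ζ ↦ circleAverage (fun w ↦ (2 * R * (‖ζ - w‖ ^ 2)⁻¹) * φ ζ) 0 r) 0 R
      = 2 * R / (R ^ 2 - r ^ 2) * circleAverage φ 0 R := by
    rw [← smul_eq_mul (2 * R / (R ^ 2 - r ^ 2)), ← circleAverage_fun_smul]
    apply circleAverage_congr_sphere
    intro ζ hζ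
    rw [abs_of_pos hR, mem_sphere_zero_iff_norm] at hζ
    have h5 := circleAverage_inv_normSq hr hrR hζ
    have h6 : (fun w ↦ (2 * R * (‖ζ - w‖ ^ 2)⁻¹) * φ ζ) =
        fun w ↦ (2 * R * φ ζ) • (‖ζ - w‖ ^ 2)⁻¹ := by
      ext w; simp only [smul_eq_mul]; ring
    simp only
    rw [h6, circleAverage_fun_smul, h5, smul_eq_mul, smul_eq_mul]
    ring
  -- step 4: integrability of the left hand side and of the middle term
  have hLi : CircleIntegrable (fun w ↦ ‖logDeriv h w‖) 0 r := by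
    apply ContinuousOn.circleIntegrable hr.le
    intro w hw
    have hw' : w ∈ closedBall (0:ℂ) R := by
      rw [mem_sphere_zero_iff_norm] at hw
      simp [hw, hrR.le]
    have a1 : AnalyticAt ℂ (logDeriv h) w := by
      have := (h1 w hw').deriv.div (h1 w hw') (h2 w hw')
      exact this
    exact a1.continuousAt.norm.continuousWithinAt
  have hMi : CircleIntegrable (fun w ↦ circleAverage (fun ζ ↦ (2 * R * (‖ζ - w‖ ^ 2)⁻¹) * φ ζ) 0 R) 0 r := by
    apply Continuous.intervalIntegrable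
    simp only [circleAverage_def]
    apply Continuous.fun_const_smul
    apply intervalIntegral.continuous_parametric_intervalIntegral_of_continuous' hKcont
  calc circleAverage (fun w ↦ ‖logDeriv h w‖) 0 r
      ≤ circleAverage (fun w ↦ circleAverage (fun ζ ↦ (2 * R * (‖ζ - w‖ ^ 2)⁻¹) * φ ζ) 0 R) 0 r :=
        circleAverage_mono hLi hMi hpt
    _ = 2 * R / (R ^ 2 - r ^ 2) * circleAverage φ 0 R := by rw [hswap, hinner]
    _ ≤ 2 / (R - r) * circleAverage φ 0 R := by
        apply mul_le_mul_of_nonneg_right _ (circleAverage_nonneg_of_nonneg (fun x _ ↦ abs_nonneg _))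
        rw [div_le_div_iff₀ (by nlinarith) (by linarith)]
        nlinarith [mul_pos hr (sub_pos.mpr hrR)]

end Part_LDL2

section Part_LDL3

open Complex Metric Real Filter Topology MeromorphicOn Set

lemma intervalIntegrable_abs_sin_rpow {α : ℝ} (h0 : 0 < α) (h1 : α < 1) (a b : ℝ) :
    IntervalIntegrable (fun θ : ℝ ↦ |Real.sin θ| ^ (-α)) MeasureTheory.volume a b := by
  have hper : Function.Periodic (fun θ : ℝ ↦ |Real.sin θ| ^ (-α)) π := by
    intro θ; simp [Real.sin_add_pi]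
  have hmeas : Measurable (fun θ : ℝ ↦ |Real.sin θ| ^ (-α)) := by fun_prop
  have hpos : IntervalIntegrable (fun θ : ℝ ↦ |Real.sin θ| ^ (-α)) MeasureTheory.volume 0 (π/2) := by
    have hr : IntervalIntegrable (fun θ : ℝ ↦ (2/π) ^ (-α) * θ ^ (-α)) MeasureTheory.volume 0 (π/2) :=
      (intervalIntegral.intervalIntegrable_rpow' (by linarith)).const_mul _
    apply hr.mono_fun hmeas.aestronglyMeasurable.restrict
    rw [Filter.EventuallyLE, MeasureTheory.ae_restrict_iff' measurableSet_uIoc]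
    filter_upwards with θ hθ
    rw [uIoc_of_le (by positivity)] at hθ
    have h2 := Real.mul_le_sin hθ.1.le hθ.2
    have h3 : 0 < 2 / π * θ := by have := hθ.1; positivity
    rw [Real.norm_of_nonneg (by positivity), Real.norm_of_nonneg (by have := hθ.1; positivity),
      ← Real.mul_rpow (by positivity) hθ.1.le]
    apply Real.rpow_le_rpow_of_nonpos h3 _ (by linarith)
    exact h2.trans (le_abs_self _)
  have hneg : IntervalIntegrable (fun θ : ℝ ↦ |Real.sin θ| ^ (-α)) MeasureTheory.volume (-(π/2)) 0 := by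
    have := hpos.comp_mul_left (c := -1)
    have h5 : π / 2 / -1 = -(π / 2) := by ring
    simpa [h5] using this.symm
  have hone := hneg.trans hpos
  apply hper.intervalIntegrable Real.pi_ne_zero (t := -(π/2)) _ a b
  convert hone using 1; ring

lemma norm_circleMap_sub_ge {r : ℝ} (hr : 0 < r) (u : ℂ) (θ : ℝ) :
    r * |Real.sin (θ - u.arg)| ≤ ‖circleMap 0 r θ - u‖ := by
  have h1 : ‖circleMap 0 r θ - u‖ = ‖(circleMap 0 r θ - u) * Complex.exp (-(u.arg * I))‖ := by
    rw [norm_mul, Complex.norm_exp]; simp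
  have h2 : (circleMap 0 r θ - u) * Complex.exp (-(u.arg * I)) =
      r * Complex.exp ((θ - u.arg : ℝ) * I) - ‖u‖ := by
    have h3 : u * Complex.exp (-(u.arg * I)) = ‖u‖ := by
      nth_rewrite 1 [← Complex.norm_mul_exp_arg_mul_I u]
      rw [mul_assoc, ← Complex.exp_add]; simp
    rw [sub_mul, h3]
    congr 1
    simp only [circleMap, zero_add, mul_assoc, ← Complex.exp_add]
    congr 2; push_cast; ring
  rw [h1, h2]
  calc r * |Real.sin (θ - u.arg)| = |(r * Complex.exp ((θ - u.arg : ℝ) * I) - ‖u‖).im| := by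
        rw [Complex.sub_im, Complex.ofReal_im, sub_zero, Complex.im_ofReal_mul,
          Complex.exp_ofReal_mul_I_im, abs_mul, abs_of_pos hr]
    _ ≤ _ := Complex.abs_im_le_norm _

/-- The constant in the average of `‖z - u‖ ^ (-α)` over a circle. -/
noncomputable def sinConst (α : ℝ) : ℝ := (2 * π)⁻¹ * ∫ θ in (0:ℝ)..2 * π, |Real.sin θ| ^ (-α)

lemma circleIntegrable_norm_sub_rpow {α : ℝ} (h0 : 0 < α) (h1 : α < 1) {r : ℝ} (hr : 0 < r) (u : ℂ) :
    CircleIntegrable (fun z ↦ ‖z - u‖ ^ (-α)) 0 r ∧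
    circleAverage (fun z ↦ ‖z - u‖ ^ (-α)) 0 r ≤ r ^ (-α) * sinConst α := by
  have hint : IntervalIntegrable (fun θ : ℝ ↦ r ^ (-α) * |Real.sin (θ - u.arg)| ^ (-α))
      MeasureTheory.volume 0 (2 * π) := by
    have := (intervalIntegrable_abs_sin_rpow h0 h1 (0 - u.arg) (2 * π - u.arg)).comp_sub_right u.arg
    simpa using this.const_mul (r ^ (-α))
  have hae : ∀ᵐ θ : ℝ, Real.sin (θ - u.arg) ≠ 0 := by
    have : Set.Countable {θ : ℝ | Real.sin (θ - u.arg) = 0} := by
      have : {θ : ℝ | Real.sin (θ - u.arg) = 0} ⊆ Set.range (fun n : ℤ ↦ n * π + u.arg) := by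
        intro θ hθ
        obtain ⟨n, hn⟩ := Real.sin_eq_zero_iff.mp hθ
        exact ⟨n, by simp only; rw [hn]; ring⟩
      exact (Set.countable_range _).mono this
    exact this.ae_notMem _
  have hle : ∀ᵐ θ : ℝ, ‖circleMap 0 r θ - u‖ ^ (-α) ≤ r ^ (-α) * |Real.sin (θ - u.arg)| ^ (-α) := by
    filter_upwards [hae] with θ hθ
    rw [← Real.mul_rpow hr.le (abs_nonneg _)]
    apply Real.rpow_le_rpow_of_nonpos (by positivity) (norm_circleMap_sub_ge hr u θ) (by linarith)
  have hmeas : Measurable (fun θ : ℝ ↦ ‖circleMap 0 r θ - u‖ ^ (-α)) := by fun_prop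
  have hci : CircleIntegrable (fun z ↦ ‖z - u‖ ^ (-α)) 0 r := by
    apply hint.mono_fun hmeas.aestronglyMeasurable.restrict
    apply MeasureTheory.ae_restrict_of_ae
    filter_upwards [hle] with θ hθ
    rw [Real.norm_of_nonneg (by positivity), Real.norm_of_nonneg (by positivity)]
    exact hθ
  refine ⟨hci, ?_⟩
  rw [circleAverage_def, smul_eq_mul, sinConst]
  have h2 : (∫ θ in (0:ℝ)..2 * π, ‖circleMap 0 r θ - u‖ ^ (-α)) ≤
      ∫ θ in (0:ℝ)..2 * π, r ^ (-α) * |Real.sin (θ - u.arg)| ^ (-α) :=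
    intervalIntegral.integral_mono_ae (by positivity) hci hint hle
  have hper : Function.Periodic (fun θ : ℝ ↦ |Real.sin θ| ^ (-α)) (2 * π) := by
    intro θ; simp [Real.sin_add_two_pi]
  have h3 : (∫ θ in (0:ℝ)..2 * π, r ^ (-α) * |Real.sin (θ - u.arg)| ^ (-α)) =
      r ^ (-α) * ∫ θ in (0:ℝ)..2 * π, |Real.sin θ| ^ (-α) := by
    rw [intervalIntegral.integral_const_mul,
      intervalIntegral.integral_comp_sub_right (fun θ ↦ |Real.sin θ| ^ (-α))]
    congr 1
    have := hper.intervalIntegral_add_eq (0 - u.arg) 0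
    rw [zero_add] at this
    rw [← this]
    congr 1; ring
  calc _ ≤ (2 * π)⁻¹ * (r ^ (-α) * ∫ θ in (0:ℝ)..2 * π, |Real.sin θ| ^ (-α)) := by
        apply mul_le_mul_of_nonneg_left _ (by positivity)
        rw [← h3]; exact h2
    _ = _ := by ring

lemma sinConst_nonneg (α : ℝ) : 0 ≤ sinConst α := by
  unfold sinConst
  apply mul_nonneg (by positivity)
  apply intervalIntegral.integral_nonneg (by positivity)
  intro θ _; positivity

end Part_LDL3

section Part_LDL4

open Complex Metric Real Filter Topology MeromorphicOn Set Function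

lemma norm_logDeriv_canonicalFactor_le {R : ℝ} {u z : ℂ} (hR : 0 < R) (hu : u ∈ ball (0:ℂ) R)
    (hz : z ∈ closedBall (0:ℂ) R) (hzu : z ≠ u) :
    ‖logDeriv (canonicalFactor R u) z‖ ≤ 2 * ‖z - u‖⁻¹ := by
  have hzu' : z - u ≠ 0 := sub_ne_zero.mpr hzu
  have hRc : (R : ℂ) ≠ 0 := by exact_mod_cast hR.ne'
  have hu' : ‖u‖ < R := by simpa using hu
  have hz' : ‖z‖ ≤ R := by simpa using hz
  have hnum : (R : ℂ) ^ 2 - starRingEnd ℂ u * z ≠ 0 := by
    intro h
    have h1 : ‖(R : ℂ) ^ 2‖ = ‖starRingEnd ℂ u * z‖ := by rw [sub_eq_zero.mp h]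
    rw [norm_pow, Complex.norm_real, Real.norm_of_nonneg hR.le, norm_mul, RCLike.norm_conj] at h1
    nlinarith [norm_nonneg u, norm_nonneg z]
  have hden : (R : ℂ) * (z - u) ≠ 0 := mul_ne_zero hRc hzu'
  have hfun : canonicalFactor R u = fun z ↦ ((R : ℂ) ^ 2 - starRingEnd ℂ u * z) / ((R:ℂ) * (z - u)) := rfl
  have e1 : logDeriv (canonicalFactor R u) z =
      -(R ^ 2 - starRingEnd ℂ u * u) / ((z - u) * (R ^ 2 - starRingEnd ℂ u * z)) := by
    rw [hfun, logDeriv_div (f := fun z ↦ (R : ℂ) ^ 2 - starRingEnd ℂ u * z) (g := fun z ↦ (R:ℂ) * (z - u))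
      z hnum hden (by fun_prop) (by fun_prop), logDeriv_apply, logDeriv_apply]
    have d1 : deriv (fun z ↦ (R : ℂ) ^ 2 - starRingEnd ℂ u * z) z = - starRingEnd ℂ u := by
      have : HasDerivAt (fun z ↦ (R : ℂ) ^ 2 - starRingEnd ℂ u * z) (- starRingEnd ℂ u) z := by
        simpa using ((hasDerivAt_id z).const_mul (starRingEnd ℂ u)).const_sub ((R:ℂ)^2)
      exact this.deriv
    have d2 : deriv (fun z ↦ (R:ℂ) * (z - u)) z = R := by
      have : HasDerivAt (fun z ↦ (R:ℂ) * (z - u)) R z := by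
        simpa using ((hasDerivAt_id z).sub_const u).const_mul (R:ℂ)
      exact this.deriv
    rw [d1, d2]
    field_simp
    ring
  have hcu : starRingEnd ℂ u * u = ((‖u‖ ^ 2 : ℝ) : ℂ) := by
    rw [mul_comm, Complex.mul_conj, Complex.normSq_eq_norm_sq]
  rw [e1, norm_div, norm_neg, norm_mul, hcu, ← Complex.ofReal_pow, ← Complex.ofReal_sub, Complex.norm_real,
    Real.norm_of_nonneg (by nlinarith [norm_nonneg u])]
  have hb : R * (R - ‖u‖) ≤ ‖(((R ^ 2 : ℝ)) : ℂ) - starRingEnd ℂ u * z‖ := by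
    calc R * (R - ‖u‖) ≤ R ^ 2 - ‖u‖ * ‖z‖ := by nlinarith [norm_nonneg u, norm_nonneg z]
      _ = ‖(((R ^ 2 : ℝ)) : ℂ)‖ - ‖starRingEnd ℂ u * z‖ := by
          rw [Complex.norm_real, Real.norm_of_nonneg (by positivity), norm_mul, RCLike.norm_conj]
      _ ≤ _ := norm_sub_norm_le _ _
  have hpos : 0 < R * (R - ‖u‖) := mul_pos hR (by linarith)
  have hzupos : 0 < ‖z - u‖ := norm_pos_iff.mpr hzu'
  rw [div_le_iff₀ (mul_pos hzupos (lt_of_lt_of_le hpos hb))]
  have : 2 * ‖z - u‖⁻¹ * (‖z - u‖ * ‖(((R ^ 2 : ℝ)) : ℂ) - starRingEnd ℂ u * z‖) =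
      2 * ‖(((R ^ 2 : ℝ)) : ℂ) - starRingEnd ℂ u * z‖ := by field_simp
  rw [this]
  nlinarith [norm_nonneg u]

/-- Bound of the logarithmic derivative of a meromorphic function in terms of zeros and poles. -/
lemma exists_bound_logDeriv {f : ℂ → ℂ} {r R : ℝ} (hr : 0 < r) (hrR : r < R)
    (hf : MeromorphicOn f (closedBall 0 R))
    (hord : ∀ u ∈ closedBall (0:ℂ) R, meromorphicOrderAt f u ≠ ⊤)
    (hsph : ∀ u ∈ sphere (0:ℂ) R, meromorphicOrderAt f u = 0) :
    ∃ (A : ℂ → ℝ), (∀ z, 0 ≤ A z) ∧ CircleIntegrable A 0 r ∧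
      circleAverage A 0 r ≤ 2 / (R - r) * circleAverage (fun ζ ↦ |Real.log ‖f ζ‖|) 0 R ∧
      ∀ᶠ z in codiscreteWithin (closedBall (0:ℂ) R),
        ‖logDeriv f z‖ ≤ (∑ᶠ u, |(divisor f (ball 0 R) u : ℝ)| * (2 * ‖z - u‖⁻¹)) + A z := by
  have hR : 0 < R := hr.trans hrR
  obtain ⟨h, D⟩ := hf.exists_ecanonicalDecomp (fun u ↦ hord u.1 u.2)
  have hsph0 : ∀ v, divisor f (sphere 0 R) v = 0 := by
    intro v
    by_cases hv : v ∈ sphere (0:ℂ) R
    · rw [divisor_apply (hf.mono_set sphere_subset_closedBall) hv, hsph v hv]; rfl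
    · exact Function.locallyFinsuppWithin.apply_eq_zero_of_notMem _ hv
  have hprod1 : (∏ᶠ v, (fun x : ℂ ↦ x - v) ^ (divisor f (sphere 0 R)) v) = 1 := by
    rw [← finprod_one (α := ℂ)]
    apply finprod_congr
    intro v; rw [hsph0 v, zpow_zero]
  set P : ℂ → ℂ := ∏ᶠ u, (canonicalFactor R u) ^ (-divisor f (ball 0 R) u) with hP
  have hev : f =ᶠ[codiscreteWithin (closedBall 0 R)] P * h := by
    have := D.eventuallyEq
    rwa [hprod1, mul_one, smul_eq_mul] at this
  have hfin : (support (fun u ↦ -divisor f (ball 0 R) u)).Finite := by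
    have := hf.divisor_ball_support_finite
    simpa [Function.support] using this
  have hPm : MeromorphicOn P (closedBall 0 R) := by
    apply MeromorphicOn.finprod
    intro u
    exact (meromorphic_canonicalFactor R u).meromorphicOn.zpow _
  have hhm : MeromorphicOn h (closedBall 0 R) := D.analyticOnNhd.meromorphicOn
  have hho : ∀ x ∈ closedBall (0:ℂ) R, meromorphicOrderAt h x ≠ ⊤ := by
    intro x hx
    have h0 : meromorphicOrderAt h x = 0 :=
      ((D.analyticOnNhd x hx).meromorphicNFAt.meromorphicOrderAt_eq_zero_iff).2 (D.ne_zero x hx)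
    rw [h0]; exact WithTop.zero_ne_top
  have hPo : ∀ x ∈ closedBall (0:ℂ) R, meromorphicOrderAt P x ≠ ⊤ := by
    intro x hx
    apply meromorphicOrderAt_finprod_ne_top
      (fun _ ↦ MeromorphicAt.zpow (meromorphic_canonicalFactor _ _ _) _)
    intro c
    rw [meromorphicOrderAt_zpow (meromorphic_canonicalFactor R c x)]
    lift meromorphicOrderAt (canonicalFactor R c) x to ℤ using
      (meromorphicOrderAt_canonicalFactor_ne_top c hR) with ℓ
    exact_mod_cast WithTop.coe_ne_top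
  -- logarithmic derivative of the product
  have hld1 : logDeriv f =ᶠ[codiscreteWithin (closedBall 0 R)] logDeriv P + logDeriv h := by
    have e1 := hf.deriv_eventuallyEq_codiscreteWithin (hPm.mul hhm) hev
    have e2 := hPm.logDeriv_mul_eventuallyEq hhm hPo hho
    filter_upwards [e1, e2, hev] with z h1 h2 h3
    rw [← h2, logDeriv_apply, logDeriv_apply, h1, h3]
  have hld2 := MeromorphicOn.logDeriv_finprod_zpow_eventuallyEq (U := closedBall (0:ℂ) R)
    (F := fun u ↦ canonicalFactor R u) (d := fun u ↦ -divisor f (ball 0 R) u) hfin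
    (fun u ↦ (meromorphic_canonicalFactor R u).meromorphicOn)
    (fun u x _ ↦ meromorphicOrderAt_canonicalFactor_ne_top u hR)
  refine ⟨fun z ↦ ‖logDeriv h z‖, fun z ↦ norm_nonneg _, ?_, ?_, ?_⟩
  · apply ContinuousOn.circleIntegrable hr.le
    intro w hw
    have hw' : w ∈ closedBall (0:ℂ) R := by
      rw [mem_sphere_zero_iff_norm] at hw
      simp [hw, hrR.le]
    have a1 : AnalyticAt ℂ (logDeriv h) w :=
      (D.analyticOnNhd w hw').deriv.div (D.analyticOnNhd w hw') (D.ne_zero w hw')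
    exact a1.continuousAt.norm.continuousWithinAt
  · refine (circleAverage_norm_logDeriv_le hr hrR D.analyticOnNhd D.ne_zero).trans (le_of_eq ?_)
    congr 1
    apply circleAverage_congr_codiscreteWithin _ hR.ne'
    rw [abs_of_pos hR]
    have h5 : f =ᶠ[codiscreteWithin (sphere 0 R)] P * h :=
      hev.filter_mono (codiscreteWithin_mono sphere_subset_closedBall)
    filter_upwards [h5, self_mem_codiscreteWithin (sphere (0:ℂ) R)] with z hz hzs
    rw [hz]
    have hPz : ‖P z‖ = 1 := by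
      rw [hP, finprod_eq_prod_of_mulSupport_subset_of_finite (s := support (fun u ↦ -divisor f (ball 0 R) u)) _ _ hfin]
      · rw [Finset.prod_apply, norm_prod]
        apply Finset.prod_eq_one
        intro u hu
        rw [Pi.pow_apply, norm_zpow]
        have hub : u ∈ ball (0:ℂ) R := by
          by_contra hcon
          have := Function.locallyFinsuppWithin.apply_eq_zero_of_notMem (divisor f (ball 0 R)) hcon
          simp [this] at hu
        rw [norm_canonicalFactor_eval_circle_eq_one hub hzs, one_zpow]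
      · intro u hu
        by_contra hcon
        simp only [mem_support, ne_eq, not_not] at hcon
        rw [mem_mulSupport, hcon, zpow_zero] at hu
        exact hu rfl
    rw [Pi.mul_apply, norm_mul, hPz, one_mul]
  · filter_upwards [hld1, hld2, self_mem_codiscreteWithin (closedBall (0:ℂ) R),
      codiscreteWithin_mono (subset_univ _) hfin.compl_mem_codiscrete] with z h1 h2 h3 h4
    rw [h1, Pi.add_apply]
    refine (norm_add_le _ _).trans (add_le_add_left ?_ _)
    rw [hP, h2]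
    rw [finsum_eq_sum_of_support_subset (s := hfin.toFinset), finsum_eq_sum_of_support_subset (s := hfin.toFinset)]
    · refine (norm_sum_le _ _).trans (Finset.sum_le_sum ?_)
      intro u hu
      have hub : u ∈ ball (0:ℂ) R := by
        by_contra hcon
        have := Function.locallyFinsuppWithin.apply_eq_zero_of_notMem (divisor f (ball 0 R)) hcon
        simp [this] at hu
      have hzu : z ≠ u := by
        rintro rfl
        exact h4 (by simpa using hu)
      rw [zsmul_eq_mul, norm_mul, Complex.norm_intCast]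
      push_cast
      rw [abs_neg]
      exact mul_le_mul_of_nonneg_left (norm_logDeriv_canonicalFactor_le hR hub h3 hzu) (abs_nonneg _)
    · intro u hu
      rw [mem_support] at hu
      simp only [Finite.coe_toFinset, mem_support, ne_eq, neg_eq_zero]
      intro h0; exact hu (by simp [h0])
    · intro u hu
      rw [mem_support] at hu
      simp only [Finite.coe_toFinset, mem_support, ne_eq, neg_eq_zero]
      intro h0; exact hu (by simp [h0])

end Part_LDL4

section Part_LDL5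

open Complex Metric Real Filter Topology MeromorphicOn Set Function

lemma rpow_sum_le {ι : Type*} (s : Finset ι) (g : ι → ℝ) (hg : ∀ i ∈ s, 0 ≤ g i) {α : ℝ} (h0 : 0 < α) (h1 : α < 1) :
    (∑ i ∈ s, g i) ^ α ≤ ∑ i ∈ s, (g i) ^ α := by
  classical
  induction s using Finset.induction_on with
  | empty => simp [Real.zero_rpow h0.ne']
  | insert a s ha ih =>
    rw [Finset.sum_insert ha, Finset.sum_insert ha]
    have hga := hg a (Finset.mem_insert_self a s)
    have hgs : ∀ i ∈ s, 0 ≤ g i := fun i hi ↦ hg i (Finset.mem_insert_of_mem hi)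
    refine (Real.rpow_add_le_add_rpow hga (Finset.sum_nonneg hgs) h0.le h1.le).trans ?_
    exact add_le_add_right (ih hgs) _

lemma posLog_le_log_one_add {x α : ℝ} (hx : 0 ≤ x) (h0 : 0 < α) :
    log⁺ x ≤ α⁻¹ * Real.log (1 + x ^ α) := by
  have hxa : 0 ≤ x ^ α := Real.rpow_nonneg hx α
  have h3 : 0 ≤ α⁻¹ * Real.log (1 + x ^ α) :=
    mul_nonneg (by positivity) (Real.log_nonneg (by linarith))
  have h4 : Real.log x ≤ α⁻¹ * Real.log (1 + x ^ α) := by
    rcases hx.eq_or_lt with rfl | hx'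
    · rw [Real.log_zero]; exact h3
    · have h2 : Real.log x = α⁻¹ * Real.log (x ^ α) := by
        rw [Real.log_rpow hx']; field_simp
      rw [h2]
      apply mul_le_mul_of_nonneg_left _ (by positivity)
      apply Real.log_le_log (Real.rpow_pos_of_pos hx' α) (by linarith)
  exact max_le h3 h4

lemma abs_intCast_rpow_le {n : ℤ} {α : ℝ} (h0 : 0 < α) (h1 : α < 1) : |(n : ℝ)| ^ α ≤ |(n : ℝ)| := by
  rcases eq_or_ne n 0 with rfl | hn
  · simp [Real.zero_rpow h0.ne']
  · have : (1:ℝ) ≤ |(n:ℝ)| := by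
      exact_mod_cast Int.one_le_abs hn
    calc |(n : ℝ)| ^ α ≤ |(n : ℝ)| ^ (1:ℝ) := Real.rpow_le_rpow_of_exponent_le this h1.le
      _ = _ := Real.rpow_one _

lemma rpow_le_one_add {x α : ℝ} (hx : 0 ≤ x) (h0 : 0 < α) (h1 : α < 1) : x ^ α ≤ 1 + x := by
  rcases le_total x 1 with h | h
  · have : x ^ α ≤ 1 := Real.rpow_le_one hx h h0.le
    linarith
  · calc x ^ α ≤ x ^ (1:ℝ) := Real.rpow_le_rpow_of_exponent_le h h1.le
      _ = x := Real.rpow_one _
      _ ≤ _ := by linarith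

lemma exists_posLog_bound {ι : Type*} (J : Finset ι) (F : ι → ℂ → ℂ) {r R α : ℝ} (hr : 0 < r) (hrR : r < R)
    (h0 : 0 < α) (h1 : α < 1)
    (hf : ∀ j ∈ J, MeromorphicOn (F j) (closedBall 0 R))
    (hord : ∀ j ∈ J, ∀ u ∈ closedBall (0:ℂ) R, meromorphicOrderAt (F j) u ≠ ⊤)
    (hsph : ∀ j ∈ J, ∀ u ∈ sphere (0:ℂ) R, meromorphicOrderAt (F j) u = 0) :
    ∃ E : ℂ → ℝ, (∀ z, 0 ≤ E z) ∧ CircleIntegrable E 0 r ∧
      circleAverage E 0 r ≤ α⁻¹ * Real.log (1 + ∑ j ∈ J, (1 + 2 / (R - r) *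
          circleAverage (fun ζ ↦ |Real.log ‖F j ζ‖|) 0 R
          + (∑ᶠ u, |(divisor (F j) (ball 0 R) u : ℝ)|) * (2 * (r ^ (-α) * sinConst α)))) ∧
      ∀ᶠ z in codiscreteWithin (closedBall (0:ℂ) R), log⁺ (∑ j ∈ J, ‖logDeriv (F j) z‖) ≤ E z := by
  classical
  have key : ∀ j : ι, ∃ A : ℂ → ℝ, j ∈ J → ((∀ z, 0 ≤ A z) ∧ CircleIntegrable A 0 r ∧
      circleAverage A 0 r ≤ 2 / (R - r) * circleAverage (fun ζ ↦ |Real.log ‖F j ζ‖|) 0 R ∧
      ∀ᶠ z in codiscreteWithin (closedBall (0:ℂ) R),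
        ‖logDeriv (F j) z‖ ≤ (∑ᶠ u, |(divisor (F j) (ball 0 R) u : ℝ)| * (2 * ‖z - u‖⁻¹)) + A z) := by
    intro j
    by_cases hj : j ∈ J
    · obtain ⟨A, hA⟩ := exists_bound_logDeriv hr hrR (hf j hj) (hord j hj) (hsph j hj)
      exact ⟨A, fun _ ↦ hA⟩
    · exact ⟨fun _ ↦ 0, fun h ↦ absurd h hj⟩
  choose A hA using key
  have hfin : ∀ j ∈ J, (support (fun u ↦ (divisor (F j) (ball 0 R) u : ℤ))).Finite := by
    intro j hj
    have := (hf j hj).divisor_ball_support_finite
    simpa [Function.support] using this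
  let s : ι → Finset ℂ := fun j ↦ if hj : j ∈ J then (hfin j hj).toFinset else ∅
  have hs : ∀ j (hj : j ∈ J), s j = (hfin j hj).toFinset := by
    intro j hj; simp only [s, hj, dif_pos]
  have hsum : ∀ j ∈ J, ∀ g : ℂ → ℝ, (∑ᶠ u, |(divisor (F j) (ball 0 R) u : ℝ)| * g u) =
      ∑ u ∈ s j, |(divisor (F j) (ball 0 R) u : ℝ)| * g u := by
    intro j hj g
    rw [hs j hj]
    apply finsum_eq_sum_of_support_subset
    intro u hu
    simp only [mem_support, ne_eq, mul_eq_zero, abs_eq_zero, Int.cast_eq_zero, not_or] at hu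
    simpa using hu.1
  set D : ι → ℂ → ℝ := fun j u ↦ |(divisor (F j) (ball 0 R) u : ℝ)| with hD
  have hD0 : ∀ j u, 0 ≤ D j u := fun j u ↦ abs_nonneg _
  set B : ℂ → ℝ := fun z ↦ ∑ j ∈ J, (1 + A j z + ∑ u ∈ s j, D j u * (2 * ‖z - u‖ ^ (-α))) with hB
  have hB0 : ∀ z, 0 ≤ B z := by
    intro z
    apply Finset.sum_nonneg
    intro j hj
    have := (hA j hj).1 z
    have h2 : 0 ≤ ∑ u ∈ s j, D j u * (2 * ‖z - u‖ ^ (-α)) := by
      apply Finset.sum_nonneg; intro u _
      exact mul_nonneg (hD0 j u) (by positivity)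
    linarith
  -- integrability of the parts of `B`
  have hi1 : ∀ j ∈ J, ∀ u ∈ s j, CircleIntegrable (fun z ↦ D j u * (2 * ‖z - u‖ ^ (-α))) 0 r := by
    intro j _ u _
    have := (circleIntegrable_norm_sub_rpow h0 h1 hr u).1
    exact (this.const_mul 2).const_mul (D j u)
  have hi2 : ∀ j ∈ J, CircleIntegrable (fun z ↦ ∑ u ∈ s j, D j u * (2 * ‖z - u‖ ^ (-α))) 0 r := by
    intro j hj
    exact CircleIntegrable.fun_sum (s j) (hi1 j hj)
  have hi3 : ∀ j ∈ J, CircleIntegrable (fun z ↦ 1 + A j z) 0 r := by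
    intro j hj
    exact (circleIntegrable_const 1 0 r).add (hA j hj).2.1
  have hi4 : ∀ j ∈ J, CircleIntegrable (fun z ↦ 1 + A j z + ∑ u ∈ s j, D j u * (2 * ‖z - u‖ ^ (-α))) 0 r := by
    intro j hj
    exact (hi3 j hj).add (hi2 j hj)
  have hBi : CircleIntegrable B 0 r := CircleIntegrable.fun_sum J hi4
  -- the average of B
  have hBavg : circleAverage B 0 r ≤ ∑ j ∈ J, (1 + 2 / (R - r) *
          circleAverage (fun ζ ↦ |Real.log ‖F j ζ‖|) 0 R
          + (∑ᶠ u, |(divisor (F j) (ball 0 R) u : ℝ)|) * (2 * (r ^ (-α) * sinConst α))) := by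
    rw [hB, circleAverage_fun_sum hi4]
    apply Finset.sum_le_sum
    intro j hj
    rw [circleAverage_fun_add (hi3 j hj) (hi2 j hj),
      circleAverage_fun_add (circleIntegrable_const 1 0 r) (hA j hj).2.1, circleAverage_const,
      circleAverage_fun_sum (hi1 j hj)]
    have e1 := (hA j hj).2.2.1
    have e2 : ∑ u ∈ s j, circleAverage (fun z ↦ D j u * (2 * ‖z - u‖ ^ (-α))) 0 r ≤
        (∑ᶠ u, |(divisor (F j) (ball 0 R) u : ℝ)|) * (2 * (r ^ (-α) * sinConst α)) := by
      have e3 := hsum j hj (fun _ ↦ 1)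
      simp only [mul_one] at e3
      rw [e3, Finset.sum_mul]
      apply Finset.sum_le_sum
      intro u _
      have e4 : circleAverage (fun z ↦ D j u * (2 * ‖z - u‖ ^ (-α))) 0 r =
          D j u * (2 * circleAverage (fun z ↦ ‖z - u‖ ^ (-α)) 0 r) := by
        simp_rw [← smul_eq_mul]
        rw [circleAverage_fun_smul, circleAverage_fun_smul]
      rw [e4]
      apply mul_le_mul_of_nonneg_left _ (hD0 j u)
      have := (circleIntegrable_norm_sub_rpow h0 h1 hr u).2
      linarith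
    linarith
  have hBavg0 : 0 ≤ circleAverage B 0 r := circleAverage_nonneg_of_nonneg (fun z _ ↦ hB0 z)
  set M : ℝ := 1 + circleAverage B 0 r with hM
  have hM1 : 1 ≤ M := by linarith
  refine ⟨fun z ↦ α⁻¹ * Real.log (1 + B z), ?_, ?_, ?_, ?_⟩
  · intro z
    apply mul_nonneg (by positivity) (Real.log_nonneg (by linarith [hB0 z]))
  · apply IntervalIntegrable.const_mul
    have hBi' : IntervalIntegrable (fun θ ↦ B (circleMap 0 r θ)) MeasureTheory.volume 0 (2 * π) := hBi
    apply hBi'.mono_fun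
    · have := (intervalIntegrable_iff.mp hBi').aestronglyMeasurable
      exact (Real.measurable_log.comp_aemeasurable (this.aemeasurable.const_add 1)).aestronglyMeasurable
    · filter_upwards with θ
      have hb := hB0 (circleMap 0 r θ)
      rw [Real.norm_of_nonneg (Real.log_nonneg (by linarith)), Real.norm_of_nonneg hb]
      have := Real.log_le_sub_one_of_pos (show 0 < 1 + B (circleMap 0 r θ) by linarith)
      linarith
  · have hMpos : 0 < M := by linarith
    have hpt : ∀ z, α⁻¹ * Real.log (1 + B z) ≤ α⁻¹ * (Real.log M - 1 + M⁻¹ + M⁻¹ * B z) := by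
      intro z
      have hb := hB0 z
      apply mul_le_mul_of_nonneg_left _ (by positivity)
      have h5 := Real.log_le_sub_one_of_pos (show 0 < (1 + B z) / M by positivity)
      rw [Real.log_div (by positivity) hMpos.ne'] at h5
      have h6 : (1 + B z) / M = M⁻¹ + M⁻¹ * B z := by field_simp
      rw [h6] at h5
      linarith
    have hgi : CircleIntegrable (fun z ↦ Real.log M - 1 + M⁻¹ + M⁻¹ * B z) 0 r :=
      (circleIntegrable_const _ 0 r).add (hBi.const_mul _)
    have hEi : CircleIntegrable (fun z ↦ α⁻¹ * Real.log (1 + B z)) 0 r := by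
      apply IntervalIntegrable.const_mul
      have hBi' : IntervalIntegrable (fun θ ↦ B (circleMap 0 r θ)) MeasureTheory.volume 0 (2 * π) := hBi
      apply hBi'.mono_fun
      · have := (intervalIntegrable_iff.mp hBi').aestronglyMeasurable
        exact (Real.measurable_log.comp_aemeasurable (this.aemeasurable.const_add 1)).aestronglyMeasurable
      · filter_upwards with θ
        have hb := hB0 (circleMap 0 r θ)
        rw [Real.norm_of_nonneg (Real.log_nonneg (by linarith)), Real.norm_of_nonneg hb]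
        have := Real.log_le_sub_one_of_pos (show 0 < 1 + B (circleMap 0 r θ) by linarith)
        linarith
    have hgi' : CircleIntegrable (fun z ↦ α⁻¹ * (Real.log M - 1 + M⁻¹ + M⁻¹ * B z)) 0 r :=
      IntervalIntegrable.const_mul hgi α⁻¹
    have h7 := Real.circleAverage_mono hEi hgi' (fun z _ ↦ hpt z)
    refine h7.trans ?_
    have e5 : circleAverage (fun z ↦ α⁻¹ * (Real.log M - 1 + M⁻¹ + M⁻¹ * B z)) 0 r =
        α⁻¹ * (Real.log M - 1 + M⁻¹ + M⁻¹ * circleAverage B 0 r) := by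
      have e6 : circleAverage (fun z ↦ α⁻¹ • (Real.log M - 1 + M⁻¹ + M⁻¹ • B z)) 0 r =
        α⁻¹ • (Real.log M - 1 + M⁻¹ + M⁻¹ • circleAverage B 0 r) := by
        rw [circleAverage_fun_smul, circleAverage_fun_add (circleIntegrable_const _ 0 r) hBi.const_fun_smul,
          circleAverage_const, circleAverage_fun_smul]
      exact e6
    rw [e5]
    apply mul_le_mul_of_nonneg_left _ (by positivity)
    have e7 : Real.log M - 1 + M⁻¹ + M⁻¹ * circleAverage B 0 r = Real.log M := by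
      have : M⁻¹ + M⁻¹ * circleAverage B 0 r = 1 := by
        rw [show M⁻¹ + M⁻¹ * circleAverage B 0 r = M⁻¹ * (1 + circleAverage B 0 r) by ring, ← hM]
        exact inv_mul_cancel₀ hMpos.ne'
      linarith
    rw [e7]
    apply Real.log_le_log hMpos
    rw [hM]; linarith
  · have hall : ∀ᶠ z in codiscreteWithin (closedBall (0:ℂ) R), ∀ j ∈ J,
        ‖logDeriv (F j) z‖ ≤ (∑ᶠ u, |(divisor (F j) (ball 0 R) u : ℝ)| * (2 * ‖z - u‖⁻¹)) + A j z := by
      rw [Filter.eventually_all_finset]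
      intro j hj
      exact (hA j hj).2.2.2
    filter_upwards [hall] with z hz
    have hX0 : 0 ≤ ∑ j ∈ J, ‖logDeriv (F j) z‖ := Finset.sum_nonneg (fun j _ ↦ norm_nonneg _)
    refine (posLog_le_log_one_add hX0 h0).trans ?_
    apply mul_le_mul_of_nonneg_left _ (by positivity)
    apply Real.log_le_log (by have := Real.rpow_nonneg hX0 α; linarith)
    gcongr
    refine (rpow_sum_le J _ (fun j _ ↦ norm_nonneg _) h0 h1).trans ?_
    rw [hB]
    apply Finset.sum_le_sum
    intro j hj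
    have hz' := hz j hj
    rw [hsum j hj] at hz'
    have hA0 := (hA j hj).1 z
    have hS0 : ∀ u ∈ s j, 0 ≤ |(divisor (F j) (ball 0 R) u : ℝ)| * (2 * ‖z - u‖⁻¹) := by
      intro u _; positivity
    calc ‖logDeriv (F j) z‖ ^ α ≤
          ((∑ u ∈ s j, |(divisor (F j) (ball 0 R) u : ℝ)| * (2 * ‖z - u‖⁻¹)) + A j z) ^ α := by
          apply Real.rpow_le_rpow (norm_nonneg _) hz' h0.le
      _ ≤ (∑ u ∈ s j, |(divisor (F j) (ball 0 R) u : ℝ)| * (2 * ‖z - u‖⁻¹)) ^ α + (A j z) ^ α :=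
          Real.rpow_add_le_add_rpow (Finset.sum_nonneg hS0) hA0 h0.le h1.le
      _ ≤ (∑ u ∈ s j, (|(divisor (F j) (ball 0 R) u : ℝ)| * (2 * ‖z - u‖⁻¹)) ^ α) + (1 + A j z) := by
          gcongr
          · exact rpow_sum_le (s j) _ hS0 h0 h1
          · exact rpow_le_one_add hA0 h0 h1
      _ ≤ (∑ u ∈ s j, D j u * (2 * ‖z - u‖ ^ (-α))) + (1 + A j z) := by
          gcongr with u hu
          rw [Real.mul_rpow (abs_nonneg _) (by positivity), Real.mul_rpow (by norm_num) (by positivity),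
            Real.inv_rpow (norm_nonneg _), ← Real.rpow_neg (norm_nonneg _)]
          have h21 : (2:ℝ) ^ α ≤ 2 := by
            calc (2:ℝ) ^ α ≤ 2 ^ (1:ℝ) := Real.rpow_le_rpow_of_exponent_le (by norm_num) h1.le
              _ = 2 := Real.rpow_one _
          have h22 : |(divisor (F j) (ball 0 R) u : ℝ)| ^ α ≤ D j u := abs_intCast_rpow_le h0 h1
          gcongr
      _ = _ := by ring

end Part_LDL5

section Part_ND1

open Complex Metric Real Filter Topology MeromorphicOn Set Function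

/-- Multiplicity of the point `z` as a zero of `g` (zero if `z` is not a zero). -/
noncomputable def zeroMult (g : ℂ → ℂ) (z : ℂ) : ℕ := ((meromorphicOrderAt g z).untop₀).toNat

lemma intCount_eq_sum {d : ℂ → ℕ} {r : ℝ} (S : Finset ℂ)
    (hS : ∀ z ∈ closedBall (0:ℂ) r, d z ≠ 0 → z ∈ S) (hS' : ∀ z ∈ S, z ∈ closedBall (0:ℂ) r) :
    intCount d r = (∑ z ∈ S, (d z : ℝ) * Real.log (r * ‖z‖⁻¹)) + (d 0 : ℝ) * Real.log r := by
  classical
  rw [intCount]
  congr 1
  have h1 : (∑ᶠ z ∈ closedBall (0:ℂ) r, (d z : ℝ) * Real.log (r * ‖z‖⁻¹)) =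
      ∑ᶠ z ∈ (S : Set ℂ), (d z : ℝ) * Real.log (r * ‖z‖⁻¹) := by
    apply finsum_mem_inter_support_eq
    ext z
    simp only [mem_inter_iff, mem_support, ne_eq, mul_eq_zero, Nat.cast_eq_zero, not_or]
    constructor
    · rintro ⟨h1, h2, h3⟩; exact ⟨hS z h1 h2, h2, h3⟩
    · rintro ⟨h1, h2, h3⟩; exact ⟨hS' z h1, h2, h3⟩
  rw [h1, finsum_mem_coe_finset]

lemma log_term_nonneg {r : ℝ} (hr : 0 < r) {z : ℂ} (hz : z ∈ closedBall (0:ℂ) r) : 0 ≤ Real.log (r * ‖z‖⁻¹) := by
  rcases eq_or_ne z 0 with rfl | h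
  · simp
  · apply Real.log_nonneg
    have h1 : 0 < ‖z‖ := norm_pos_iff.mpr h
    have h2 : ‖z‖ ≤ r := by simpa using hz
    rw [← div_eq_mul_inv, le_div_iff₀ h1]; linarith

lemma neg_log_two_le {r : ℝ} (hr : 1/2 ≤ r) : -Real.log 2 ≤ Real.log r := by
  rw [← Real.log_inv]
  apply Real.log_le_log (by norm_num)
  linarith

lemma intCount_ge {d : ℂ → ℕ} {r : ℝ} (hr : 1/2 ≤ r) : -((d 0 : ℝ) * Real.log 2) ≤ intCount d r := by
  rw [intCount]
  have h1 : 0 ≤ ∑ᶠ z ∈ closedBall (0:ℂ) r, (d z : ℝ) * Real.log (r * ‖z‖⁻¹) := by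
    apply finsum_nonneg
    intro z
    apply finsum_nonneg
    intro hz
    exact mul_nonneg (Nat.cast_nonneg _) (log_term_nonneg (by linarith) hz)
  have h2 := mul_le_mul_of_nonneg_left (neg_log_two_le hr) (Nat.cast_nonneg (α := ℝ) (d 0))
  linarith

lemma count_mul_le {d : ℂ → ℕ} {R R' : ℝ} (hR : 1/2 ≤ R) (hRR' : R < R') (S : Finset ℂ)
    (hS : ∀ z ∈ S, z ∈ closedBall (0:ℂ) R)
    (hfin : {z ∈ closedBall (0:ℂ) R' | d z ≠ 0}.Finite) :
    (∑ z ∈ S, (d z : ℝ)) * (R' - R) ≤ R' * (intCount d R' + (d 0 : ℝ) * Real.log 2) := by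
  classical
  have hR'0 : 0 < R' := by linarith
  have hR0 : 0 < R := by linarith
  have hlog : (R' - R) / R' ≤ Real.log (R' / R) := by
    have := Real.one_sub_inv_le_log_of_pos (show 0 < R' / R by positivity)
    rw [inv_div] at this
    calc (R' - R) / R' = 1 - R / R' := by field_simp
      _ ≤ _ := this
  have hlogpos : 0 ≤ Real.log (R' / R) := Real.log_nonneg (by rw [le_div_iff₀ hR0]; linarith)
  -- the sum over `S ∪ support`
  set S' : Finset ℂ := hfin.toFinset ∪ S with hS'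
  have hS'1 : ∀ z ∈ closedBall (0:ℂ) R', d z ≠ 0 → z ∈ S' := by
    intro z hz hdz
    rw [hS', Finset.mem_union]; left
    simpa using ⟨by simpa using hz, hdz⟩
  have hS'2 : ∀ z ∈ S', z ∈ closedBall (0:ℂ) R' := by
    intro z hz
    rw [hS', Finset.mem_union] at hz
    rcases hz with hz | hz
    · have := (Set.Finite.mem_toFinset hfin).mp hz
      exact this.1
    · exact closedBall_subset_closedBall hRR'.le (hS z hz)
  have key : (∑ z ∈ S, (d z : ℝ)) * Real.log (R' / R) ≤ intCount d R' + (d 0 : ℝ) * Real.log 2 := by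
    rw [intCount_eq_sum S' hS'1 hS'2]
    have hsub : S ⊆ S' := by rw [hS']; exact Finset.subset_union_right
    -- split off zero
    have e1 : ∑ z ∈ S.erase 0, (d z : ℝ) * Real.log (R' / R) ≤ ∑ z ∈ S', (d z : ℝ) * Real.log (R' * ‖z‖⁻¹) := by
      calc ∑ z ∈ S.erase 0, (d z : ℝ) * Real.log (R' / R)
          ≤ ∑ z ∈ S.erase 0, (d z : ℝ) * Real.log (R' * ‖z‖⁻¹) := by
            apply Finset.sum_le_sum
            intro z hz
            rw [Finset.mem_erase] at hz
            apply mul_le_mul_of_nonneg_left _ (Nat.cast_nonneg _)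
            have hz0 : 0 < ‖z‖ := norm_pos_iff.mpr hz.1
            have hzR : ‖z‖ ≤ R := by simpa using hS z hz.2
            apply Real.log_le_log (by positivity)
            rw [div_eq_mul_inv]
            exact mul_le_mul_of_nonneg_left (inv_anti₀ hz0 hzR) hR'0.le
        _ ≤ _ := by
            apply Finset.sum_le_sum_of_subset_of_nonneg
            · exact (Finset.erase_subset _ _).trans hsub
            · intro z hz _
              exact mul_nonneg (Nat.cast_nonneg _) (log_term_nonneg hR'0 (hS'2 z hz))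
    have e2 : ∑ z ∈ S, (d z : ℝ) ≤ ∑ z ∈ S.erase 0, (d z : ℝ) + d 0 := by
      by_cases h0 : (0:ℂ) ∈ S
      · rw [Finset.sum_erase_add _ _ h0]
      · rw [Finset.erase_eq_of_notMem h0]
        have : (0:ℝ) ≤ d 0 := Nat.cast_nonneg _
        linarith
    have e3 : Real.log (R' / R) ≤ Real.log R' + Real.log 2 := by
      rw [Real.log_div hR'0.ne' hR0.ne']
      have := neg_log_two_le hR
      linarith
    calc (∑ z ∈ S, (d z : ℝ)) * Real.log (R' / R) ≤ (∑ z ∈ S.erase 0, (d z : ℝ) + d 0) * Real.log (R' / R) :=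
          mul_le_mul_of_nonneg_right e2 hlogpos
      _ = ∑ z ∈ S.erase 0, (d z : ℝ) * Real.log (R' / R) + d 0 * Real.log (R' / R) := by
          rw [add_mul, Finset.sum_mul]
      _ ≤ ∑ z ∈ S', (d z : ℝ) * Real.log (R' * ‖z‖⁻¹) + d 0 * (Real.log R' + Real.log 2) :=
          add_le_add e1 (mul_le_mul_of_nonneg_left e3 (Nat.cast_nonneg _))
      _ = _ := by ring
  have hsum0 : 0 ≤ ∑ z ∈ S, (d z : ℝ) := Finset.sum_nonneg (fun _ _ ↦ Nat.cast_nonneg _)
  calc (∑ z ∈ S, (d z : ℝ)) * (R' - R) = R' * ((∑ z ∈ S, (d z : ℝ)) * ((R' - R) / R')) := by field_simp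
    _ ≤ R' * ((∑ z ∈ S, (d z : ℝ)) * Real.log (R' / R)) := by gcongr
    _ ≤ _ := by gcongr

/-- poles and zeros of a meromorphic function in a closed disc are finitely many -/
lemma finite_order_ne_zero {g : ℂ → ℂ} {r : ℝ} (hg : MeromorphicOn g (closedBall 0 r)) :
    {z ∈ closedBall (0:ℂ) r | (meromorphicOrderAt g z).untop₀ ≠ 0}.Finite := by
  have h := (divisor g (closedBall (0:ℂ) r)).finiteSupport (isCompact_closedBall 0 r)
  apply h.subset
  rintro z ⟨hz, h0⟩
  rw [mem_support, divisor_apply hg hz]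
  exact h0

lemma finite_poleMult {g : ℂ → ℂ} {r : ℝ} (hg : MeromorphicOn g (closedBall 0 r)) :
    {z ∈ closedBall (0:ℂ) r | poleMult g z ≠ 0}.Finite := by
  apply (finite_order_ne_zero hg).subset
  rintro z ⟨hz, h0⟩
  refine ⟨hz, fun h ↦ h0 ?_⟩
  rw [poleMult, h]; rfl

lemma finite_zeroMult {g : ℂ → ℂ} {r : ℝ} (hg : MeromorphicOn g (closedBall 0 r)) :
    {z ∈ closedBall (0:ℂ) r | zeroMult g z ≠ 0}.Finite := by
  apply (finite_order_ne_zero hg).subset
  rintro z ⟨hz, h0⟩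
  refine ⟨hz, fun h ↦ h0 ?_⟩
  rw [zeroMult, h]; rfl

lemma untop_eq_sub (g : ℂ → ℂ) (z : ℂ) :
    (((meromorphicOrderAt g z).untop₀ : ℤ) : ℝ) = (zeroMult g z : ℝ) - (poleMult g z : ℝ) := by
  rw [zeroMult, poleMult]
  have := Int.toNat_sub_toNat_neg ((meromorphicOrderAt g z).untop₀)
  exact_mod_cast this.symm

/-- Jensen's formula in the disc. -/
lemma jensen {g : ℂ → ℂ} {r : ℝ} (hr : 0 < r) (hg : MeromorphicOn g (closedBall 0 r)) :
    circleAverage (fun z ↦ Real.log ‖g z‖) 0 r = intCount (zeroMult g) r - intCount (poleMult g) r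
      + Real.log ‖meromorphicTrailingCoeffAt g 0‖ := by
  classical
  have hg' : MeromorphicOn g (closedBall 0 |r|) := by rwa [abs_of_pos hr]
  have h := MeromorphicOn.circleAverage_log_norm hr.ne' hg'
  rw [h, abs_of_pos hr]
  set S := (finite_order_ne_zero hg).toFinset with hS
  have hmem : ∀ z, z ∈ S ↔ z ∈ closedBall (0:ℂ) r ∧ (meromorphicOrderAt g z).untop₀ ≠ 0 := by
    intro z; rw [hS, Set.Finite.mem_toFinset]; rfl
  rw [intCount_eq_sum (d := zeroMult g) S, intCount_eq_sum (d := poleMult g) S]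
  · have h0 : (0:ℂ) ∈ closedBall (0:ℂ) r := by simp [hr.le]
    rw [divisor_apply hg h0, untop_eq_sub g 0]
    rw [finsum_eq_sum_of_support_subset (s := S)]
    · have e1 : ∀ u ∈ S, ((divisor g (closedBall 0 r) u : ℤ) : ℝ) * Real.log (r * ‖0 - u‖⁻¹) =
          (zeroMult g u : ℝ) * Real.log (r * ‖u‖⁻¹) - (poleMult g u : ℝ) * Real.log (r * ‖u‖⁻¹) := by
        intro u hu
        rw [divisor_apply hg ((hmem u).mp hu).1, untop_eq_sub g u, zero_sub, norm_neg]
        ring
      rw [Finset.sum_congr rfl e1, Finset.sum_sub_distrib]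
      ring
    · intro u hu
      rw [Finset.mem_coe, hmem]
      rw [mem_support] at hu
      have hd : divisor g (closedBall 0 r) u ≠ 0 := by
        intro h1; apply hu; rw [h1]; simp
      have hub : u ∈ closedBall (0:ℂ) r := by
        by_contra hcon
        exact hd (Function.locallyFinsuppWithin.apply_eq_zero_of_notMem _ hcon)
      refine ⟨hub, ?_⟩
      rwa [divisor_apply hg hub] at hd
  · intro z hz hd
    rw [hmem]
    refine ⟨hz, fun h1 ↦ hd ?_⟩
    rw [poleMult, h1]; rfl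
  · intro z hz; exact ((hmem z).mp hz).1
  · intro z hz hd
    rw [hmem]
    refine ⟨hz, fun h1 ↦ hd ?_⟩
    rw [zeroMult, h1]; rfl
  · intro z hz; exact ((hmem z).mp hz).1

lemma poleMult_sub_const {f : ℂ → ℂ} {z : ℂ} (hf : MeromorphicAt f z) (a : ℂ) :
    poleMult (fun w ↦ f w - a) z = poleMult f z := by
  have hc : MeromorphicAt (fun _ : ℂ ↦ -a) z := MeromorphicAt.const _ _
  have hc0 : 0 ≤ meromorphicOrderAt (fun _ : ℂ ↦ -a) z := (analyticAt_const).meromorphicOrderAt_nonneg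
  have e : (fun w ↦ f w - a) = f + (fun _ ↦ -a) := by
    ext w; simp [sub_eq_add_neg]
  rw [poleMult, poleMult, e]
  by_cases h : meromorphicOrderAt f z < 0
  · rw [meromorphicOrderAt_add_eq_left_of_lt hc (lt_of_lt_of_le h hc0)]
  · push Not at h
    have h2 : 0 ≤ meromorphicOrderAt (f + fun _ ↦ -a) z :=
      (le_min h hc0).trans (meromorphicOrderAt_add hf hc)
    have h3 : ∀ n : WithTop ℤ, 0 ≤ n → (-n.untop₀).toNat = 0 := by
      intro n hn
      have : 0 ≤ n.untop₀ := by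
        cases n with
        | top => simp
        | coe n => simpa using hn
      omega
    rw [h3 _ h, h3 _ h2]

lemma poleMult_deriv {f : ℂ → ℂ} {z : ℂ} (hf : MeromorphicAt f z) :
    poleMult (deriv f) z = poleMult f z + min 1 (poleMult f z) := by
  have h3 : ∀ n : WithTop ℤ, 0 ≤ n → (-n.untop₀).toNat = 0 := by
    intro n hn
    have : 0 ≤ n.untop₀ := by
      cases n with
      | top => simp
      | coe n => simpa using hn
    omega
  by_cases h : 0 ≤ meromorphicOrderAt f z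
  · obtain ⟨g, hg1, hg2⟩ := hf.meromorphicOrderAt_nonneg_iff.mp h
    have h4 : 0 ≤ meromorphicOrderAt (deriv f) z := by
      rw [hf.deriv.meromorphicOrderAt_nonneg_iff]
      exact ⟨deriv g, hg1.deriv, hg2.nhdsNE_deriv⟩
    rw [poleMult, poleMult, h3 _ h, h3 _ h4]; rfl
  · push Not at h
    obtain ⟨n, hn⟩ : ∃ n : ℤ, meromorphicOrderAt f z = n := by
      cases hm : meromorphicOrderAt f z with
      | top => rw [hm] at h; exact absurd h (by simp)
      | coe n => exact ⟨n, rfl⟩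
    have hn0 : n < 0 := by rw [hn] at h; exact_mod_cast h
    have h5 := meromorphicOrderAt_deriv_eq_sub_one (f := f) (x := z) (n := n) (by exact_mod_cast hn0.ne) hn
    rw [poleMult, poleMult, h5, hn]
    simp only [WithTop.untop₀_coe]
    omega

end Part_ND1

section Part_ND2

open Complex Metric Real Filter Topology MeromorphicOn Set Function

lemma intCount_add {d e : ℂ → ℕ} {r : ℝ} (hd : {z ∈ closedBall (0:ℂ) r | d z ≠ 0}.Finite)
    (he : {z ∈ closedBall (0:ℂ) r | e z ≠ 0}.Finite) :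
    intCount (fun z ↦ d z + e z) r = intCount d r + intCount e r := by
  classical
  set S := hd.toFinset ∪ he.toFinset with hS
  have hmem : ∀ z, z ∈ S ↔ z ∈ closedBall (0:ℂ) r ∧ (d z ≠ 0 ∨ e z ≠ 0) := by
    intro z
    rw [hS, Finset.mem_union, Set.Finite.mem_toFinset, Set.Finite.mem_toFinset]
    constructor
    · rintro (h | h)
      · exact ⟨h.1, Or.inl h.2⟩
      · exact ⟨h.1, Or.inr h.2⟩
    · rintro ⟨h, h1 | h1⟩
      · exact Or.inl ⟨h, h1⟩
      · exact Or.inr ⟨h, h1⟩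
  rw [intCount_eq_sum (d := d) S, intCount_eq_sum (d := e) S, intCount_eq_sum (d := fun z ↦ d z + e z) S]
  · push_cast
    simp_rw [add_mul]
    rw [Finset.sum_add_distrib]
    ring
  · intro z hz h; rw [hmem]; exact ⟨hz, by omega⟩
  · intro z hz; exact ((hmem z).mp hz).1
  · intro z hz h; rw [hmem]; exact ⟨hz, Or.inr h⟩
  · intro z hz; exact ((hmem z).mp hz).1
  · intro z hz h; rw [hmem]; exact ⟨hz, Or.inl h⟩
  · intro z hz; exact ((hmem z).mp hz).1

lemma circleAverage_mono_codiscrete {f₁ f₂ : ℂ → ℝ} {R : ℝ} (hR : 0 < R) (hf₁ : CircleIntegrable f₁ 0 R)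
    (hf₂ : CircleIntegrable f₂ 0 R) (h : ∀ᶠ z in codiscreteWithin (sphere (0:ℂ) R), f₁ z ≤ f₂ z) :
    circleAverage f₁ 0 R ≤ circleAverage f₂ 0 R := by
  have h' : f₂ =ᶠ[codiscreteWithin (sphere (0:ℂ) |R|)] (fun z ↦ max (f₁ z) (f₂ z)) := by
    rw [abs_of_pos hR]
    filter_upwards [h] with z hz
    rw [max_eq_right hz]
  rw [circleAverage_congr_codiscreteWithin h' hR.ne']
  apply Real.circleAverage_mono hf₁ (hf₂.congr_codiscreteWithin h')
  intro z _
  exact le_max_left _ _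

lemma intCount_poleMult_deriv {f : ℂ → ℂ} {r : ℝ} (hf : MeromorphicOn f (closedBall 0 r)) (hr : 0 ≤ r) :
    intCount (poleMult (deriv f)) r = intCount (poleMult f) r + countBar f r := by
  have h1 := finite_poleMult hf
  have h2 : {z ∈ closedBall (0:ℂ) r | min 1 (poleMult f z) ≠ 0}.Finite := by
    apply h1.subset
    rintro z ⟨hz, h⟩
    exact ⟨hz, fun h0 ↦ h (by rw [h0]; rfl)⟩
  rw [countBar, ← intCount_add h1 h2]
  have h3 : ∀ z ∈ closedBall (0:ℂ) r, poleMult (deriv f) z = poleMult f z + min 1 (poleMult f z) :=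
    fun z hz ↦ poleMult_deriv (hf z hz)
  rw [intCount, intCount, h3 0 (by simpa using hr)]
  congr 1
  apply finsum_mem_congr rfl
  intro z hz
  rw [h3 z hz]

lemma order_deriv_ne_top {f : ℂ → ℂ} {u : ℂ} (hf : MeromorphicAt f u)
    (hord : ∀ a : ℂ, meromorphicOrderAt (fun z ↦ f z - a) u ≠ ⊤) : meromorphicOrderAt (deriv f) u ≠ ⊤ := by
  have key : ∀ a : ℂ, meromorphicOrderAt (fun z ↦ f z - a) u ≠ 0 → meromorphicOrderAt (deriv f) u ≠ ⊤ := by
    intro a ha
    obtain ⟨n, hn⟩ : ∃ n : ℤ, meromorphicOrderAt (fun z ↦ f z - a) u = n := by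
      cases hm : meromorphicOrderAt (fun z ↦ f z - a) u with
      | top => exact absurd hm (hord a)
      | coe n => exact ⟨n, rfl⟩
    have hn0 : n ≠ 0 := by
      rintro rfl; exact ha (by rw [hn]; rfl)
    have h5 := meromorphicOrderAt_deriv_eq_sub_one (f := fun z ↦ f z - a) (x := u) (n := n)
      (by exact_mod_cast hn0) hn
    have e : deriv (fun z ↦ f z - a) = deriv f := by
      ext z; exact deriv_sub_const (f := f) a
    rw [e] at h5
    rw [h5]; exact WithTop.coe_ne_top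
  by_cases h : meromorphicOrderAt (fun z ↦ f z - 0) u = 0
  · have e : (fun z ↦ f z - 0) = f := by ext z; simp
    rw [e] at h
    obtain ⟨c, hc⟩ := tendsto_nhds_of_meromorphicOrderAt_nonneg hf h.ge
    apply key c
    have h2 : Tendsto (fun z ↦ f z - c) (𝓝[≠] u) (𝓝 0) := by
      simpa using hc.sub_const c
    have hm : MeromorphicAt (fun z ↦ f z - c) u := hf.sub (MeromorphicAt.const _ _)
    exact ((tendsto_zero_iff_meromorphicOrderAt_pos hm).mp h2).ne'
  · exact key 0 h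

lemma exists_sep (J : Finset ℂ) : ∃ C : ℝ, 0 ≤ C ∧ ∀ w : ℂ, J.Nonempty →
    ∃ b ∈ J, ∑ a ∈ J, log⁺ ‖w - a‖⁻¹ ≤ log⁺ ‖w - b‖⁻¹ + C := by
  classical
  set K : ℝ := ∑ a ∈ J, ∑ b ∈ J, log⁺ (2 * ‖a - b‖⁻¹) with hK
  have hK0 : 0 ≤ K := Finset.sum_nonneg (fun a _ ↦ Finset.sum_nonneg (fun b _ ↦ posLog_nonneg))
  refine ⟨J.card * K, by positivity, fun w hJ ↦ ?_⟩
  obtain ⟨b, hb, hmin⟩ := Finset.exists_min_image J (fun a ↦ ‖w - a‖) hJ
  refine ⟨b, hb, ?_⟩
  have hle : ∀ a ∈ J.erase b, log⁺ ‖w - a‖⁻¹ ≤ K := by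
    intro a ha
    rw [Finset.mem_erase] at ha
    have h1 : 0 < ‖a - b‖ := norm_pos_iff.mpr (sub_ne_zero.mpr ha.1)
    have h2 : ‖a - b‖ ≤ 2 * ‖w - a‖ := by
      have h3 : ‖a - b‖ ≤ ‖w - b‖ + ‖w - a‖ := by
        have : a - b = (w - b) - (w - a) := by ring
        rw [this]; exact norm_sub_le _ _
      have := hmin a ha.2
      linarith
    have h4 : ‖w - a‖⁻¹ ≤ 2 * ‖a - b‖⁻¹ := by
      have h5 : 0 < ‖w - a‖ := by linarith
      rw [← one_div, div_le_iff₀ h5]
      have : 2 * ‖a - b‖⁻¹ * ‖w - a‖ = (2 * ‖w - a‖) * ‖a - b‖⁻¹ := by ring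
      rw [this, ← div_eq_mul_inv, le_div_iff₀ h1]; linarith
    calc log⁺ ‖w - a‖⁻¹ ≤ log⁺ (2 * ‖a - b‖⁻¹) := posLog_le_posLog (by positivity) h4
      _ ≤ ∑ b ∈ J, log⁺ (2 * ‖a - b‖⁻¹) :=
          Finset.single_le_sum (f := fun b ↦ log⁺ (2 * ‖a - b‖⁻¹)) (fun _ _ ↦ posLog_nonneg) hb
      _ ≤ K := Finset.single_le_sum (f := fun a ↦ ∑ b ∈ J, log⁺ (2 * ‖a - b‖⁻¹))
          (fun _ _ ↦ Finset.sum_nonneg (fun b _ ↦ posLog_nonneg)) ha.2
  rw [← Finset.add_sum_erase _ _ hb]
  gcongr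
  calc ∑ a ∈ J.erase b, log⁺ ‖w - a‖⁻¹ ≤ ∑ a ∈ J.erase b, K := Finset.sum_le_sum hle
    _ = (J.erase b).card * K := by rw [Finset.sum_const, nsmul_eq_mul]
    _ ≤ J.card * K := by
        apply mul_le_mul_of_nonneg_right _ hK0
        exact_mod_cast Finset.card_le_card (Finset.erase_subset _ _)

/-- The two pointwise inequalities. -/
lemma pointwise_ineq {J : Finset ℂ} (hJ : J.Nonempty) :
    ∃ C : ℝ, 0 ≤ C ∧ ∀ w w' : ℂ, w' ≠ 0 → (∀ a ∈ J, w ≠ a) →
    (∑ a ∈ J, log⁺ ‖w - a‖⁻¹ ≤ log⁺ ‖w'‖⁻¹ + log⁺ (∑ a ∈ J, ‖w' / (w - a)‖) + C) ∧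
    (∑ a ∈ J, log⁺ ‖w - a‖⁻¹ + Real.log ‖w'‖ ≤ log⁺ ‖w‖ + log⁺ (∑ a ∈ J, ‖w' / (w - a)‖) + C) := by
  classical
  obtain ⟨C, hC0, hC⟩ := exists_sep J
  set K : ℝ := ∑ b ∈ J, log⁺ ‖b‖ with hK
  have hK0 : 0 ≤ K := Finset.sum_nonneg (fun a _ ↦ posLog_nonneg)
  have hlog2 : 0 ≤ Real.log 2 := Real.log_nonneg (by norm_num)
  refine ⟨C + K + Real.log 2, by positivity, fun w w' hw' hw ↦ ?_⟩
  obtain ⟨b, hb, hbC⟩ := hC w hJ
  have hwb : 0 < ‖w - b‖ := norm_pos_iff.mpr (sub_ne_zero.mpr (hw b hb))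
  have hw'0 : 0 < ‖w'‖ := norm_pos_iff.mpr hw'
  have hS : ‖w' / (w - b)‖ ≤ ∑ a ∈ J, ‖w' / (w - a)‖ :=
    Finset.single_le_sum (f := fun a ↦ ‖w' / (w - a)‖) (fun _ _ ↦ norm_nonneg _) hb
  have hS' : log⁺ ‖w' / (w - b)‖ ≤ log⁺ (∑ a ∈ J, ‖w' / (w - a)‖) := posLog_le_posLog (norm_nonneg _) hS
  constructor
  · have e1 : log⁺ ‖w - b‖⁻¹ ≤ log⁺ ‖w'‖⁻¹ + log⁺ ‖w' / (w - b)‖ := by
      have : ‖w - b‖⁻¹ = ‖w'‖⁻¹ * ‖w' / (w - b)‖ := by
        rw [norm_div]; field_simp
      rw [this]; exact posLog_mul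
    linarith
  · have e1 : log⁺ ‖w - b‖⁻¹ + Real.log ‖w'‖ = Real.log ‖w' / (w - b)‖ + log⁺ ‖w - b‖ := by
      have h1 := posLog_sub_posLog_inv (x := ‖w - b‖)
      rw [norm_div, Real.log_div hw'0.ne' hwb.ne']
      linarith
    have e2 : Real.log ‖w' / (w - b)‖ ≤ log⁺ ‖w' / (w - b)‖ := le_max_right _ _
    have e3 : log⁺ ‖w - b‖ ≤ Real.log 2 + log⁺ ‖w‖ + log⁺ ‖b‖ := by
      have := posLog_norm_add_le w (-b)
      rw [norm_neg, ← sub_eq_add_neg] at this
      linarith
    have e4 : log⁺ ‖b‖ ≤ K := Finset.single_le_sum (f := fun b ↦ log⁺ ‖b‖) (fun _ _ ↦ posLog_nonneg) hb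
    linarith

lemma circleIntegrable_posLog_inv {g : ℂ → ℂ} {r : ℝ} (hr : 0 < r) (hg : MeromorphicOn g (closedBall 0 r)) (a : ℂ) :
    CircleIntegrable (fun z ↦ log⁺ ‖g z - a‖⁻¹) 0 r := by
  have h1 : MeromorphicOn (fun z ↦ (g z - a)⁻¹) (sphere 0 r) := by
    intro z hz
    exact ((hg z (sphere_subset_closedBall hz)).sub (MeromorphicAt.const _ _)).inv
  have h2 := h1.circleIntegrable_posLog_norm_of_nonneg hr.le
  have e : (fun z ↦ log⁺ ‖g z - a‖⁻¹) = (fun z ↦ log⁺ ‖(g z - a)⁻¹‖) := by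
    ext z; rw [norm_inv]
  rw [e]; exact h2

lemma circleIntegrable_posLog {g : ℂ → ℂ} {r : ℝ} (hr : 0 < r) (hg : MeromorphicOn g (closedBall 0 r)) :
    CircleIntegrable (fun z ↦ log⁺ ‖g z‖) 0 r :=
  (hg.mono_set sphere_subset_closedBall).circleIntegrable_posLog_norm_of_nonneg hr.le

lemma circleIntegrable_log {g : ℂ → ℂ} {r : ℝ} (hr : 0 < r) (hg : MeromorphicOn g (closedBall 0 r)) :
    CircleIntegrable (fun z ↦ Real.log ‖g z‖) 0 r :=
  (hg.mono_set sphere_subset_closedBall).circleIntegrable_log_norm_of_nonneg hr.le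

/-- Averages of the two pointwise inequalities. -/
lemma avg_ineq {J : Finset ℂ} (hJ : J.Nonempty) :
    ∃ C : ℝ, 0 ≤ C ∧ ∀ (f : ℂ → ℂ) (r : ℝ), 0 < r → MeromorphicOn f (closedBall 0 r) →
      (∀ u ∈ closedBall (0:ℂ) r, ∀ a : ℂ, meromorphicOrderAt (fun z ↦ f z - a) u ≠ ⊤) →
      ∀ E : ℂ → ℝ, CircleIntegrable E 0 r →
      (∀ᶠ z in codiscreteWithin (closedBall (0:ℂ) r),
        log⁺ (∑ a ∈ J, ‖logDeriv (fun w ↦ f w - a) z‖) ≤ E z) →
      (∑ a ∈ J, prox a f r ≤ prox 0 (deriv f) r + circleAverage E 0 r + C) ∧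
      (∑ a ∈ J, prox a f r + circleAverage (fun z ↦ Real.log ‖deriv f z‖) 0 r ≤
        proxInf f r + circleAverage E 0 r + C) := by
  obtain ⟨C, hC0, hC⟩ := pointwise_ineq hJ
  refine ⟨C, hC0, fun f r hr hf hord E hE hev ↦ ?_⟩
  have hdf : MeromorphicOn (deriv f) (closedBall 0 r) := fun z hz ↦ (hf z hz).deriv
  have hdo : ∀ u ∈ closedBall (0:ℂ) r, meromorphicOrderAt (deriv f) u ≠ ⊤ :=
    fun u hu ↦ order_deriv_ne_top (hf u hu) (hord u hu)
  have ev1 := hdf.eventually_codiscreteWithin_apply_ne_zero hdo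
  have ev2 : ∀ᶠ z in codiscreteWithin (closedBall (0:ℂ) r), ∀ a ∈ J, f z - a ≠ 0 := by
    rw [Filter.eventually_all_finset]
    intro a _
    have hfa : MeromorphicOn (fun z ↦ f z - a) (closedBall 0 r) :=
      fun z hz ↦ (hf z hz).sub (MeromorphicAt.const _ _)
    exact hfa.eventually_codiscreteWithin_apply_ne_zero (fun u hu ↦ hord u hu a)
  have hS : ∀ z, (∑ a ∈ J, ‖logDeriv (fun w ↦ f w - a) z‖) = ∑ a ∈ J, ‖deriv f z / (f z - a)‖ := by
    intro z
    apply Finset.sum_congr rfl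
    intro a _
    rw [logDeriv_apply, deriv_sub_const]
  have hpt : ∀ᶠ z in codiscreteWithin (sphere (0:ℂ) r),
      (∑ a ∈ J, log⁺ ‖f z - a‖⁻¹ ≤ log⁺ ‖deriv f z - 0‖⁻¹ + E z + C) ∧
      (∑ a ∈ J, log⁺ ‖f z - a‖⁻¹ + Real.log ‖deriv f z‖ ≤ log⁺ ‖f z‖ + E z + C) := by
    apply Filter.Eventually.filter_mono (codiscreteWithin_mono sphere_subset_closedBall)
    filter_upwards [ev1, ev2, hev] with z h1 h2 h3
    have h4 := hC (f z) (deriv f z) h1 (fun a ha ↦ sub_ne_zero.mp (h2 a ha))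
    rw [hS z] at h3
    rw [sub_zero]
    exact ⟨by linarith [h4.1], by linarith [h4.2]⟩
  have i1 : ∀ a ∈ J, CircleIntegrable (fun z ↦ log⁺ ‖f z - a‖⁻¹) 0 r :=
    fun a _ ↦ circleIntegrable_posLog_inv hr hf a
  have i2 : CircleIntegrable (fun z ↦ ∑ a ∈ J, log⁺ ‖f z - a‖⁻¹) 0 r := CircleIntegrable.fun_sum J i1
  have i3 := circleIntegrable_posLog_inv hr hdf 0
  have i4 := circleIntegrable_posLog hr hf
  have i5 := circleIntegrable_log hr hdf
  have iC : CircleIntegrable (fun _ : ℂ ↦ C) 0 r := circleIntegrable_const C 0 r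
  have esum : circleAverage (fun z ↦ ∑ a ∈ J, log⁺ ‖f z - a‖⁻¹) 0 r = ∑ a ∈ J, prox a f r := by
    rw [circleAverage_fun_sum i1]; rfl
  constructor
  · have h := circleAverage_mono_codiscrete hr i2 ((i3.add hE).add iC) (hpt.mono (fun z hz ↦ hz.1))
    rw [esum] at h
    refine h.trans (le_of_eq ?_)
    have e1 : circleAverage (((fun z ↦ log⁺ ‖deriv f z - 0‖⁻¹) + E) + fun _ ↦ C) 0 r =
        prox 0 (deriv f) r + circleAverage E 0 r + C := by
      rw [circleAverage_add (i3.add hE) iC, circleAverage_add i3 hE, circleAverage_const]; rfl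
    exact e1
  · have h := circleAverage_mono_codiscrete hr (i2.add i5) ((i4.add hE).add iC) (hpt.mono (fun z hz ↦ hz.2))
    rw [circleAverage_add i2 i5, esum] at h
    refine h.trans (le_of_eq ?_)
    have e1 : circleAverage (((fun z ↦ log⁺ ‖f z‖) + E) + fun _ ↦ C) 0 r =
        proxInf f r + circleAverage E 0 r + C := by
      rw [circleAverage_add (i4.add hE) iC, circleAverage_add i4 hE, circleAverage_const]; rfl
    exact e1

end Part_ND2

section Part_ND3

open Complex Metric Real Filter Topology MeromorphicOn Set Function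

lemma proxInf_nonneg (g : ℂ → ℂ) (r : ℝ) : 0 ≤ proxInf g r :=
  circleAverage_nonneg_of_nonneg (fun _ _ ↦ posLog_nonneg)

lemma prox_nonneg (a : ℂ) (g : ℂ → ℂ) (r : ℝ) : 0 ≤ prox a g r :=
  circleAverage_nonneg_of_nonneg (fun _ _ ↦ posLog_nonneg)

lemma avg_posLog_sub_le {f : ℂ → ℂ} {r : ℝ} (hr : 0 < r) (hf : MeromorphicOn f (closedBall 0 r)) (a : ℂ) :
    circleAverage (fun z ↦ log⁺ ‖f z - a‖) 0 r ≤ proxInf f r + (log⁺ ‖a‖ + Real.log 2) := by
  have hfa : MeromorphicOn (fun z ↦ f z - a) (closedBall 0 r) :=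
    fun z hz ↦ (hf z hz).sub (MeromorphicAt.const _ _)
  have i1 := circleIntegrable_posLog hr hfa
  have i2 := circleIntegrable_posLog hr hf
  have i3 : CircleIntegrable (fun _ : ℂ ↦ (log⁺ ‖a‖ + Real.log 2)) 0 r := circleIntegrable_const _ 0 r
  have h := Real.circleAverage_mono i1 (i2.add i3) (fun z _ ↦ by
    have := posLog_norm_add_le (f z) (-a)
    rw [norm_neg, ← sub_eq_add_neg] at this
    simp only [Pi.add_apply]
    linarith)
  refine h.trans (le_of_eq ?_)
  have e1 : circleAverage ((fun z ↦ log⁺ ‖f z‖) + fun _ ↦ (log⁺ ‖a‖ + Real.log 2)) 0 r =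
      proxInf f r + (log⁺ ‖a‖ + Real.log 2) := by
    rw [circleAverage_add i2 i3, circleAverage_const]; rfl
  exact e1

lemma fmt_bounds {f : ℂ → ℂ} (hf : MeromorphicOn f (ball 0 1)) (a : ℂ) :
    ∃ C : ℝ, 0 ≤ C ∧ (∀ r, 1/2 ≤ r → r < 1 →
      circleAverage (fun z ↦ |Real.log ‖f z - a‖|) 0 r ≤ 2 * charT f r + C) ∧
      (∀ R R', 1/2 ≤ R → R < R' → R' < 1 →
        (∑ᶠ u, |(divisor (fun z ↦ f z - a) (ball 0 R) u : ℝ)|) * (R' - R) ≤ 2 * charT f R' + C) := by
  classical
  set g : ℂ → ℂ := fun z ↦ f z - a with hg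
  have hgm : ∀ r, r < 1 → MeromorphicOn g (closedBall 0 r) := fun r hr z hz ↦
    (hf z (closedBall_subset_ball hr hz)).sub (MeromorphicAt.const _ _)
  have hfm : ∀ r, r < 1 → MeromorphicOn f (closedBall 0 r) := fun r hr z hz ↦
    hf z (closedBall_subset_ball hr hz)
  have hpole : ∀ z ∈ ball (0:ℂ) 1, poleMult g z = poleMult f z := fun z hz ↦ poleMult_sub_const (hf z hz) a
  have hNpole : ∀ r, r < 1 → 0 < r → intCount (poleMult g) r = intCount (poleMult f) r := by
    intro r hr hr0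
    rw [intCount, intCount, hpole 0 (by simp)]
    congr 1
    apply finsum_mem_congr rfl
    intro z hz
    rw [hpole z (closedBall_subset_ball hr hz)]
  have hlog2 : 0 ≤ Real.log 2 := Real.log_nonneg (by norm_num)
  set c := Real.log ‖meromorphicTrailingCoeffAt g 0‖ with hc
  set B := log⁺ ‖a‖ + Real.log 2 with hB
  have hB0 : 0 ≤ B := add_nonneg posLog_nonneg hlog2
  set Z : ℝ := (zeroMult g 0 : ℝ) * Real.log 2 with hZ
  set P : ℝ := (poleMult f 0 : ℝ) * Real.log 2 with hP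
  have hZ0 : 0 ≤ Z := by positivity
  have hP0 : 0 ≤ P := by positivity
  refine ⟨2 * B + Z + 2 * P + |c|, by positivity, ?_, ?_⟩
  · intro r hr1 hr2
    have hr0 : 0 < r := by linarith
    have hj := jensen hr0 (hgm r hr2)
    rw [hNpole r hr2 hr0] at hj
    have i1 := circleIntegrable_posLog hr0 (hgm r hr2)
    have i2 := circleIntegrable_log hr0 (hgm r hr2)
    have e1 : (fun z ↦ |Real.log ‖g z‖|) = (fun z ↦ 2 * log⁺ ‖g z‖ - Real.log ‖g z‖) := by
      ext z
      have := half_mul_log_add_log_abs (x := ‖g z‖)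
      linarith
    have e2 : circleAverage (fun z ↦ |Real.log ‖g z‖|) 0 r =
        2 * circleAverage (fun z ↦ log⁺ ‖g z‖) 0 r - circleAverage (fun z ↦ Real.log ‖g z‖) 0 r := by
      rw [e1]
      have i3 : CircleIntegrable (fun z ↦ 2 • log⁺ ‖g z‖) 0 r := by
        have := i1.const_mul 2
        refine IntervalIntegrable.congr (fun _ _ ↦ ?_) this
        simp [two_mul]
      have e3 : circleAverage (fun z ↦ 2 * log⁺ ‖g z‖) 0 r = 2 * circleAverage (fun z ↦ log⁺ ‖g z‖) 0 r := by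
        have := circleAverage_fun_smul (a := (2:ℝ)) (f := fun z ↦ log⁺ ‖g z‖) (c := 0) (R := r)
        simpa [smul_eq_mul] using this
      have i4 : CircleIntegrable (fun z ↦ 2 * log⁺ ‖g z‖) 0 r := i1.const_mul 2
      rw [circleAverage_fun_sub i4 i2, e3]
    rw [e2, hj]
    have h1 := avg_posLog_sub_le hr0 (hfm r hr2) a
    have h2 := intCount_ge (d := zeroMult g) hr1
    have h3 := intCount_ge (d := poleMult f) hr1
    have h4 := neg_abs_le c
    have h5 := proxInf_nonneg f r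
    rw [charT]
    have h6 : circleAverage (fun z ↦ log⁺ ‖g z‖) 0 r ≤ proxInf f r + B := h1
    linarith
  · intro R R' hR hRR' hR'
    have hR0 : 0 < R := by linarith
    have hR'0 : 0 < R' := by linarith
    have hj := jensen hR'0 (hgm R' hR')
    rw [hNpole R' hR' hR'0] at hj
    have h1 := avg_posLog_sub_le hR'0 (hfm R' hR') a
    have h6 : circleAverage (fun z ↦ log⁺ ‖g z‖) 0 R' ≤ proxInf f R' + B := h1
    have h7 : circleAverage (fun z ↦ Real.log ‖g z‖) 0 R' ≤ circleAverage (fun z ↦ log⁺ ‖g z‖) 0 R' :=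
      Real.circleAverage_mono (circleIntegrable_log hR'0 (hgm R' hR'))
        (circleIntegrable_posLog hR'0 (hgm R' hR')) (fun z _ ↦ le_max_right _ _)
    have hRlt : R < 1 := by linarith
    set S := (finite_order_ne_zero (hgm R hRlt)).toFinset with hS
    have hmem : ∀ z, z ∈ S ↔ z ∈ closedBall (0:ℂ) R ∧ (meromorphicOrderAt g z).untop₀ ≠ 0 := by
      intro z; rw [hS, Set.Finite.mem_toFinset]; rfl
    have e1 : (∑ᶠ u, |(divisor g (ball 0 R) u : ℝ)|) ≤ ∑ u ∈ S, ((zeroMult g u : ℝ) + (poleMult f u : ℝ)) := by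
      rw [finsum_eq_sum_of_support_subset (s := S)]
      · apply Finset.sum_le_sum
        intro u hu
        have hub := ((hmem u).mp hu).1
        have hpu := hpole u (closedBall_subset_ball hRlt hub)
        by_cases hu2 : u ∈ ball (0:ℂ) R
        · rw [divisor_apply ((hgm R hRlt).mono_set ball_subset_closedBall) hu2, untop_eq_sub g u, hpu]
          refine (abs_sub _ _).trans (le_of_eq ?_)
          rw [abs_of_nonneg (Nat.cast_nonneg _), abs_of_nonneg (Nat.cast_nonneg _)]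
        · rw [Function.locallyFinsuppWithin.apply_eq_zero_of_notMem _ hu2]
          simp only [Int.cast_zero, abs_zero]
          positivity
      · intro u hu
        rw [Finset.mem_coe, hmem]
        rw [mem_support] at hu
        have hd : divisor g (ball 0 R) u ≠ 0 := by
          intro h1; apply hu; rw [h1]; simp
        have hub : u ∈ ball (0:ℂ) R := by
          by_contra hcon
          exact hd (Function.locallyFinsuppWithin.apply_eq_zero_of_notMem _ hcon)
        refine ⟨ball_subset_closedBall hub, ?_⟩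
        rwa [divisor_apply ((hgm R hRlt).mono_set ball_subset_closedBall) hub] at hd
    have k1 := count_mul_le (d := zeroMult g) hR hRR' S (fun z hz ↦ ((hmem z).mp hz).1)
      (finite_zeroMult (hgm R' hR'))
    have k2 := count_mul_le (d := poleMult f) hR hRR' S (fun z hz ↦ ((hmem z).mp hz).1)
      (finite_poleMult (hfm R' hR'))
    have hR'half : 1/2 ≤ R' := by linarith
    have g1 := intCount_ge (d := zeroMult g) hR'half
    have g2 := intCount_ge (d := poleMult f) hR'half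
    have k1' : (∑ z ∈ S, (zeroMult g z : ℝ)) * (R' - R) ≤ intCount (zeroMult g) R' + Z := by
      refine k1.trans ?_
      have : 0 ≤ intCount (zeroMult g) R' + Z := by linarith
      nlinarith
    have k2' : (∑ z ∈ S, (poleMult f z : ℝ)) * (R' - R) ≤ intCount (poleMult f) R' + P := by
      refine k2.trans ?_
      have : 0 ≤ intCount (poleMult f) R' + P := by linarith
      nlinarith
    have h4 := neg_abs_le c
    have h5 := proxInf_nonneg f R'
    calc (∑ᶠ u, |(divisor g (ball 0 R) u : ℝ)|) * (R' - R)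
        ≤ (∑ u ∈ S, ((zeroMult g u : ℝ) + (poleMult f u : ℝ))) * (R' - R) :=
          mul_le_mul_of_nonneg_right e1 (by linarith)
      _ = (∑ z ∈ S, (zeroMult g z : ℝ)) * (R' - R) + (∑ z ∈ S, (poleMult f z : ℝ)) * (R' - R) := by
          rw [Finset.sum_add_distrib, add_mul]
      _ ≤ (intCount (zeroMult g) R' + Z) + (intCount (poleMult f) R' + P) := add_le_add k1' k2'
      _ ≤ _ := by
          rw [charT]
          linarith

/-- First main theorem for a function `g` (lower and upper). -/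
lemma fmt_zero {g : ℂ → ℂ} (hg : MeromorphicOn g (ball 0 1)) :
    ∀ r, 1/2 ≤ r → r < 1 →
      charT g r = prox 0 g r + intCount (zeroMult g) r + Real.log ‖meromorphicTrailingCoeffAt g 0‖ := by
  intro r hr1 hr2
  have hr0 : 0 < r := by linarith
  have hgm : MeromorphicOn g (closedBall 0 r) := fun z hz ↦ hg z (closedBall_subset_ball hr2 hz)
  have hj := jensen hr0 hgm
  have i1 := circleIntegrable_posLog hr0 hgm
  have i2 := circleIntegrable_posLog_inv hr0 hgm 0
  have e1 : circleAverage (fun z ↦ Real.log ‖g z‖) 0 r = proxInf g r - prox 0 g r := by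
    rw [proxInf, prox, ← circleAverage_fun_sub i1 i2]
    congr 1
    ext z
    rw [sub_zero, posLog_sub_posLog_inv]
  rw [charT]
  linarith

end Part_ND3

section Part_ND4

open Complex Metric Real Filter Topology MeromorphicOn Set Function

/-- A radius between `a` and `b` free of zeros and poles. -/
lemma exists_good_radius {J : Finset ℂ} {f : ℂ → ℂ} (hf : MeromorphicOn f (ball 0 1))
    (hord : ∀ u ∈ ball (0:ℂ) 1, ∀ a : ℂ, meromorphicOrderAt (fun z ↦ f z - a) u ≠ ⊤)
    {s t : ℝ} (hst : s < t) (ht : t < 1) :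
    ∃ R, s < R ∧ R < t ∧ ∀ a ∈ J, ∀ u ∈ sphere (0:ℂ) R, meromorphicOrderAt (fun z ↦ f z - a) u = 0 := by
  have hgm : ∀ a : ℂ, MeromorphicOn (fun z ↦ f z - a) (closedBall 0 t) := fun a z hz ↦
    (hf z (closedBall_subset_ball ht hz)).sub (MeromorphicAt.const _ _)
  set bad : Set ℂ := ⋃ a ∈ J, {z ∈ closedBall (0:ℂ) t | (meromorphicOrderAt (fun z ↦ f z - a) z).untop₀ ≠ 0} with hbad
  have hfin : bad.Finite := by
    rw [hbad]
    apply Set.Finite.biUnion (Finset.finite_toSet J)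
    intro a _
    exact finite_order_ne_zero (hgm a)
  have hfin2 : ((fun z : ℂ ↦ ‖z‖) '' bad).Finite := hfin.image _
  have hinf : (Ioo s t).Infinite := Ioo_infinite hst
  obtain ⟨R, hR1, hR2⟩ := (hinf.sdiff hfin2).nonempty
  refine ⟨R, hR1.1, hR1.2, fun a ha u hu ↦ ?_⟩
  have hnu : ‖u‖ = R := by simpa using hu
  have hub : u ∈ closedBall (0:ℂ) t := by
    simp [hnu, hR1.2.le]
  have h0 : (meromorphicOrderAt (fun z ↦ f z - a) u).untop₀ = 0 := by
    by_contra hcon
    apply hR2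
    refine ⟨u, ?_, hnu⟩
    rw [hbad]
    simp only [mem_iUnion]
    exact ⟨a, ha, hub, hcon⟩
  have h1 := hord u (closedBall_subset_ball ht hub) a
  cases hm : meromorphicOrderAt (fun z ↦ f z - a) u with
  | top => exact absurd hm h1
  | coe n =>
    rw [hm] at h0
    simp only [WithTop.untop₀_coe] at h0
    rw [h0]; rfl

/-- Growth bound of the error term. -/
lemma error_bound {J : Finset ℂ} {f : ℂ → ℂ} (hf : MeromorphicOn f (ball 0 1))
    (hord : ∀ u ∈ ball (0:ℂ) 1, ∀ a : ℂ, meromorphicOrderAt (fun z ↦ f z - a) u ≠ ⊤)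
    {α K p r₀ : ℝ} (h0 : 0 < α) (h1 : α < 1) (hK : 0 ≤ K) (hp : 0 ≤ p) (hr₀ : 1/2 ≤ r₀)
    (hgrow : ∀ r, r₀ ≤ r → r < 1 → charT f r ≤ K * (1 - r) ^ (-p)) :
    ∃ C : ℝ, 0 ≤ C ∧ ∀ r, r₀ ≤ r → r < 1 → ∃ E : ℂ → ℝ, CircleIntegrable E 0 r ∧
      (∀ᶠ z in codiscreteWithin (closedBall (0:ℂ) r),
        log⁺ (∑ a ∈ J, ‖logDeriv (fun w ↦ f w - a) z‖) ≤ E z) ∧
      circleAverage E 0 r ≤ α⁻¹ * ((p + 1) * Real.log (1 / (1 - r))) + C := by
  classical
  choose Ca hCa0 hCa1 hCa2 using fun a ↦ fmt_bounds hf a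
  set B : ℝ := ∑ a ∈ J, Ca a with hB
  have hB0 : 0 ≤ B := Finset.sum_nonneg (fun a _ ↦ hCa0 a)
  have hCaB : ∀ a ∈ J, Ca a ≤ B := fun a ha ↦ Finset.single_le_sum (fun a _ ↦ hCa0 a) ha
  set G : ℝ := 2 * (K * 6 ^ p) + B with hG
  have h6p : 0 < (6:ℝ) ^ p := by positivity
  have hG0 : 0 ≤ G := by positivity
  have hs0 := sinConst_nonneg α
  set M : ℝ := 1 + J.card * (1 + 6 * G + 6 * G * (4 * sinConst α)) with hM
  have hM1 : 1 ≤ M := by
    have : 0 ≤ (J.card : ℝ) * (1 + 6 * G + 6 * G * (4 * sinConst α)) := by positivity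
    linarith
  refine ⟨α⁻¹ * Real.log M, mul_nonneg (by positivity) (Real.log_nonneg hM1), fun r hr1 hr2 ↦ ?_⟩
  have hrpos : 0 < r := by linarith
  have hx : 0 < 1 - r := by linarith
  obtain ⟨R, hR1, hR2, hRsph⟩ := exists_good_radius (J := J) hf hord
    (s := r + (1 - r) / 3) (t := r + 2 * (1 - r) / 3) (by linarith) (by linarith)
  have hrR : r < R := by linarith
  have hRlt : R < 1 := by linarith
  set R' := (1 + R) / 2 with hR'
  have hR'lt : R' < 1 := by rw [hR']; linarith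
  have hRR' : R < R' := by rw [hR']; linarith
  have hgm : ∀ a ∈ J, MeromorphicOn (fun z ↦ f z - a) (closedBall 0 R) := fun a _ z hz ↦
    (hf z (closedBall_subset_ball hRlt hz)).sub (MeromorphicAt.const _ _)
  obtain ⟨E, hE0, hEi, hEavg, hEev⟩ := exists_posLog_bound J (fun a z ↦ f z - a) hrpos hrR h0 h1 hgm
    (fun a _ u hu ↦ hord u (closedBall_subset_ball hRlt hu) a) hRsph
  refine ⟨E, hEi, hEev.filter_mono (codiscreteWithin_mono (closedBall_subset_closedBall hrR.le)), ?_⟩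
  refine hEavg.trans ?_
  -- estimate the ingredients
  set X : ℝ := (1 - r) ^ (-p) with hX
  have hX1 : 1 ≤ X := Real.one_le_rpow_of_pos_of_le_one_of_nonpos hx (by linarith) (by linarith)
  have hgr : ∀ t, R ≤ t → t < 1 → (1 - r) / 6 ≤ 1 - t → 2 * charT f t + B ≤ G * X := by
    intro t ht1 ht2 ht3
    have h3 := hgrow t (by linarith) ht2
    have h4 : (1 - t) ^ (-p) ≤ ((1 - r) / 6) ^ (-p) :=
      Real.rpow_le_rpow_of_nonpos (by positivity) ht3 (by linarith)
    have h5 : ((1 - r) / 6) ^ (-p) = 6 ^ p * X := by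
      rw [Real.div_rpow hx.le (by norm_num), hX, Real.rpow_neg (by norm_num : (0:ℝ) ≤ 6)]
      field_simp
    rw [h5] at h4
    have h6 : charT f t ≤ K * (6 ^ p * X) := h3.trans (mul_le_mul_of_nonneg_left h4 hK)
    rw [hG]
    nlinarith
  have e1 : ∀ a ∈ J, circleAverage (fun ζ ↦ |Real.log ‖f ζ - a‖|) 0 R ≤ G * X := by
    intro a ha
    have h3 := hCa1 a R (by linarith) hRlt
    have h4 := hgr R le_rfl hRlt (by linarith)
    linarith [hCaB a ha]
  have e2 : ∀ a ∈ J, (∑ᶠ u, |(divisor (fun z ↦ f z - a) (ball 0 R) u : ℝ)|) ≤ 6 / (1 - r) * (G * X) := by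
    intro a ha
    have h3 := hCa2 a R R' (by linarith) hRR' hR'lt
    have h4 := hgr R' hRR'.le hR'lt (by rw [hR']; linarith)
    have h5 : (∑ᶠ u, |(divisor (fun z ↦ f z - a) (ball 0 R) u : ℝ)|) * (R' - R) ≤ G * X := by
      linarith [hCaB a ha]
    have h6 : (1 - r) / 6 ≤ R' - R := by rw [hR']; linarith
    have h7 : 0 ≤ ∑ᶠ u, |(divisor (fun z ↦ f z - a) (ball 0 R) u : ℝ)| := finsum_nonneg (fun _ ↦ abs_nonneg _)
    have h8 : (∑ᶠ u, |(divisor (fun z ↦ f z - a) (ball 0 R) u : ℝ)|) * ((1 - r) / 6) ≤ G * X :=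
      (mul_le_mul_of_nonneg_left h6 h7).trans h5
    have h9 : 6 / (1 - r) * (G * X) = G * X / ((1 - r) / 6) := by field_simp
    rw [h9, le_div_iff₀ (by positivity)]
    exact h8
  have e3 : 2 / (R - r) ≤ 6 / (1 - r) := by
    rw [div_le_div_iff₀ (by linarith) hx]; linarith
  have e4 : r ^ (-α) ≤ 2 := by
    have h3 : r ^ (-α) ≤ (1/2 : ℝ) ^ (-α) :=
      Real.rpow_le_rpow_of_nonpos (by norm_num) (by linarith) (by linarith)
    have h4 : (1/2 : ℝ) ^ (-α) = 2 ^ α := by
      rw [Real.rpow_neg (by norm_num), one_div, Real.inv_rpow (by norm_num), inv_inv]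
    have h5 : (2:ℝ) ^ α ≤ 2 ^ (1:ℝ) := Real.rpow_le_rpow_of_exponent_le (by norm_num) h1.le
    rw [Real.rpow_one] at h5
    linarith
  set Y : ℝ := (1 - r)⁻¹ with hY
  have hY1 : 1 ≤ Y := by rw [hY]; exact (one_le_inv₀ hx).mpr (by linarith)
  have hXY : (1 - r) ^ (-(p + 1)) = X * Y := by
    rw [hX, hY, show -(p + 1) = -p + (-1) by ring, Real.rpow_add hx, Real.rpow_neg_one]
  have e5 : ∀ a ∈ J, (1 + 2 / (R - r) * circleAverage (fun ζ ↦ |Real.log ‖f ζ - a‖|) 0 R
          + (∑ᶠ u, |(divisor (fun z ↦ f z - a) (ball 0 R) u : ℝ)|) * (2 * (r ^ (-α) * sinConst α))) ≤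
          (1 + 6 * G + 6 * G * (4 * sinConst α)) * (X * Y) := by
    intro a ha
    have havg0 : 0 ≤ circleAverage (fun ζ ↦ |Real.log ‖f ζ - a‖|) 0 R :=
      circleAverage_nonneg_of_nonneg (fun _ _ ↦ abs_nonneg _)
    have h3 : 2 / (R - r) * circleAverage (fun ζ ↦ |Real.log ‖f ζ - a‖|) 0 R ≤ 6 * G * (X * Y) := by
      calc _ ≤ 6 / (1 - r) * (G * X) := mul_le_mul e3 (e1 a ha) havg0 (by positivity)
        _ = _ := by rw [hY]; field_simp
    have h4 : (∑ᶠ u, |(divisor (fun z ↦ f z - a) (ball 0 R) u : ℝ)|) * (2 * (r ^ (-α) * sinConst α)) ≤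
        6 * G * (4 * sinConst α) * (X * Y) := by
      calc _ ≤ (6 / (1 - r) * (G * X)) * (2 * (2 * sinConst α)) := by
            apply mul_le_mul (e2 a ha) _ (by positivity) (by positivity)
            gcongr
        _ = _ := by rw [hY]; field_simp; ring
    have h5 : 1 ≤ X * Y := one_le_mul_of_one_le_of_one_le hX1 hY1
    nlinarith
  have e6 : 1 + ∑ a ∈ J, (1 + 2 / (R - r) * circleAverage (fun ζ ↦ |Real.log ‖f ζ - a‖|) 0 R
          + (∑ᶠ u, |(divisor (fun z ↦ f z - a) (ball 0 R) u : ℝ)|) * (2 * (r ^ (-α) * sinConst α))) ≤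
          M * (X * Y) := by
    have h5 : 1 ≤ X * Y := one_le_mul_of_one_le_of_one_le hX1 hY1
    have h3 := Finset.sum_le_sum e5
    rw [Finset.sum_const, nsmul_eq_mul] at h3
    rw [hM]
    nlinarith
  have e7 : 0 < 1 + ∑ a ∈ J, (1 + 2 / (R - r) * circleAverage (fun ζ ↦ |Real.log ‖f ζ - a‖|) 0 R
          + (∑ᶠ u, |(divisor (fun z ↦ f z - a) (ball 0 R) u : ℝ)|) * (2 * (r ^ (-α) * sinConst α))) := by
    have : 0 ≤ ∑ a ∈ J, (1 + 2 / (R - r) * circleAverage (fun ζ ↦ |Real.log ‖f ζ - a‖|) 0 R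
          + (∑ᶠ u, |(divisor (fun z ↦ f z - a) (ball 0 R) u : ℝ)|) * (2 * (r ^ (-α) * sinConst α))) := by
      apply Finset.sum_nonneg
      intro a _
      have havg0 : 0 ≤ circleAverage (fun ζ ↦ |Real.log ‖f ζ - a‖|) 0 R :=
        circleAverage_nonneg_of_nonneg (fun _ _ ↦ abs_nonneg _)
      have h7 : 0 ≤ ∑ᶠ u, |(divisor (fun z ↦ f z - a) (ball 0 R) u : ℝ)| := finsum_nonneg (fun _ ↦ abs_nonneg _)
      have h8 : 0 < R - r := by linarith
      positivity
    linarith
  have hXYpos : 0 < X * Y := by positivity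
  calc α⁻¹ * Real.log _ ≤ α⁻¹ * Real.log (M * (X * Y)) := by
        apply mul_le_mul_of_nonneg_left (Real.log_le_log e7 e6) (by positivity)
    _ = α⁻¹ * (Real.log M + (p + 1) * Real.log (1 / (1 - r))) := by
        rw [Real.log_mul (by linarith) hXYpos.ne', ← hXY, Real.log_rpow hx, one_div, Real.log_inv]
        ring
    _ = _ := by ring

end Part_ND4

section Part_ND5

open Complex Metric Real Filter Topology MeromorphicOn Set Function

lemma main_ineq {J : Finset ℂ} {f : ℂ → ℂ} (hf : MeromorphicOn f (ball 0 1))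
    (hord : ∀ u ∈ ball (0:ℂ) 1, ∀ a : ℂ, meromorphicOrderAt (fun z ↦ f z - a) u ≠ ⊤)
    {α K p r₀ : ℝ} (h0 : 0 < α) (h1 : α < 1) (hK : 0 ≤ K) (hp : 0 ≤ p) (hr₀ : 1/2 ≤ r₀)
    (hgrow : ∀ r, r₀ ≤ r → r < 1 → charT f r ≤ K * (1 - r) ^ (-p)) :
    ∃ C : ℝ, 0 ≤ C ∧ ∀ r, r₀ ≤ r → r < 1 → 0 ≤ charT f r + countBar f r →
      ∑ a ∈ J, prox a f r ≤ max (prox 0 (deriv f) r / charT (deriv f) r) 0 * (charT f r + countBar f r)
        + α⁻¹ * ((p + 1) * Real.log (1 / (1 - r))) + C := by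
  rcases J.eq_empty_or_nonempty with rfl | hJ
  · refine ⟨0, le_rfl, fun r hr1 hr2 hD ↦ ?_⟩
    rw [Finset.sum_empty]
    have e1 : 0 ≤ Real.log (1 / (1 - r)) := by
      apply Real.log_nonneg
      rw [le_div_iff₀ (by linarith)]; linarith
    have e2 : 0 ≤ max (prox 0 (deriv f) r / charT (deriv f) r) 0 := le_max_right _ _
    positivity
  obtain ⟨C1, hC10, hC1⟩ := error_bound (J := J) hf hord h0 h1 hK hp hr₀ hgrow
  obtain ⟨C2, hC20, hC2⟩ := avg_ineq hJ
  have hdf : MeromorphicOn (deriv f) (ball 0 1) := fun z hz ↦ (hf z hz).deriv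
  set c := Real.log ‖meromorphicTrailingCoeffAt (deriv f) 0‖ with hc
  set Z : ℝ := (zeroMult (deriv f) 0 : ℝ) * Real.log 2 with hZ
  have hZ0 : 0 ≤ Z := by
    have : 0 ≤ Real.log 2 := Real.log_nonneg (by norm_num)
    positivity
  refine ⟨C1 + C2 + (Z + |c|), by positivity, fun r hr1 hr2 hD ↦ ?_⟩
  have hrh : 1/2 ≤ r := hr₀.trans hr1
  have hr0 : 0 < r := by linarith
  have hfr : MeromorphicOn f (closedBall 0 r) := fun z hz ↦ hf z (closedBall_subset_ball hr2 hz)
  have hdfr : MeromorphicOn (deriv f) (closedBall 0 r) := fun z hz ↦ hdf z (closedBall_subset_ball hr2 hz)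
  obtain ⟨E, hEi, hEev, hEavg⟩ := hC1 r hr1 hr2
  obtain ⟨q1, q2⟩ := hC2 f r hr0 hfr (fun u hu a ↦ hord u (closedBall_subset_ball hr2 hu) a) E hEi hEev
  have hj := jensen hr0 hdfr
  rw [hj, intCount_poleMult_deriv hfr hr0.le] at q2
  have hfmt := fmt_zero hdf r hrh hr2
  have hge := intCount_ge (d := zeroMult (deriv f)) hrh
  have hμ := prox_nonneg 0 (deriv f) r
  set μ := prox 0 (deriv f) r with hμd
  set τ := charT (deriv f) r with hτd
  have hDdef : charT f r = proxInf f r + intCount (poleMult f) r := rfl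
  set D := charT f r + countBar f r with hDd
  have hca := neg_abs_le c
  have i1 : ∑ a ∈ J, prox a f r ≤ μ + α⁻¹ * ((p + 1) * Real.log (1 / (1 - r))) + C1 + C2 := by linarith
  have i2 : ∑ a ∈ J, prox a f r ≤ D + μ - τ + α⁻¹ * ((p + 1) * Real.log (1 / (1 - r))) + C1 + C2 := by linarith
  have i3 : μ - τ ≤ Z + |c| := by linarith
  have hθ0 : 0 ≤ max (μ / τ) 0 := le_max_right _ _
  rcases le_or_gt τ 0 with hτ | hτ
  · have : 0 ≤ max (μ / τ) 0 * D := mul_nonneg hθ0 hD
    linarith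
  · have hθ : max (μ / τ) 0 = μ / τ := max_eq_left (by positivity)
    rw [hθ]
    rcases le_or_gt τ D with h2 | h2
    · have : μ ≤ μ / τ * D := by
        calc μ = μ / τ * τ := by field_simp
          _ ≤ _ := mul_le_mul_of_nonneg_left h2 (by positivity)
      have : 0 ≤ Z + |c| := by positivity
      linarith
    · rcases le_or_gt (μ / τ) 1 with h3 | h3
      · have h4 : D + μ - τ ≤ μ / τ * D := by
          have h5 : μ = μ / τ * τ := by field_simp
          have h6 : (1 - μ / τ) * D ≤ (1 - μ / τ) * τ := mul_le_mul_of_nonneg_left h2.le (by linarith)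
          nlinarith
        have : 0 ≤ Z + |c| := by positivity
        linarith
      · have h4 : D ≤ μ / τ * D := by nlinarith
        linarith

end Part_ND5

section Part_ND6

open Complex Metric Real Filter Topology MeromorphicOn Set Function
open scoped ENNReal

lemma liminf_add_liminf_le {ι : Type*} {F : Filter ι} (u v : ι → ℝ≥0∞) :
    liminf u F + liminf v F ≤ liminf (fun i ↦ u i + v i) F := by
  rw [Filter.liminf_eq_iSup_iInf, Filter.liminf_eq_iSup_iInf]
  apply ENNReal.biSup_add_biSup_le' (p := fun s ↦ s ∈ F) (q := fun s ↦ s ∈ F) ⟨univ, univ_mem⟩ ⟨univ, univ_mem⟩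
  intro s hs t ht
  rw [Filter.liminf_eq_iSup_iInf]
  refine le_trans ?_ (le_iSup₂ (f := fun s (_ : s ∈ F) ↦ ⨅ a ∈ s, (u a + v a)) (s ∩ t) (inter_mem hs ht))
  apply le_iInf₂
  intro a ha
  exact add_le_add (iInf₂_le a ha.1) (iInf₂_le a ha.2)

lemma sum_liminf_le {ι κ : Type*} {F : Filter ι} (J : Finset κ) (u : κ → ι → ℝ≥0∞) :
    ∑ a ∈ J, liminf (u a) F ≤ liminf (fun i ↦ ∑ a ∈ J, u a i) F := by
  classical
  induction J using Finset.induction_on with
  | empty => simp
  | insert a s ha ih =>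
    simp_rw [Finset.sum_insert ha]
    exact (add_le_add_right ih _).trans (liminf_add_liminf_le _ _)

lemma liminf_add_le_add_limsup {ι : Type*} {F : Filter ι} (u v : ι → ℝ≥0∞) :
    liminf (fun i ↦ u i + v i) F ≤ liminf u F + limsup v F := by
  rcases eq_or_ne (liminf u F) ⊤ with h | hu
  · rw [h, top_add]; exact le_top
  rcases eq_or_ne (limsup v F) ⊤ with h | hv
  · rw [h, add_top]; exact le_top
  apply ENNReal.le_of_forall_pos_le_add
  intro ε hε _
  have hε2 : (0 : ℝ≥0∞) < ((ε / 2 : NNReal) : ℝ≥0∞) := by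
    have : 0 < ε / 2 := by positivity
    exact_mod_cast this
  have h1 : liminf u F < liminf u F + ((ε / 2 : NNReal) : ℝ≥0∞) := ENNReal.lt_add_right hu hε2.ne'
  have h2 : limsup v F < limsup v F + ((ε / 2 : NNReal) : ℝ≥0∞) := ENNReal.lt_add_right hv hε2.ne'
  have e1 := frequently_lt_of_liminf_lt (by isBoundedDefault) h1
  have e2 := eventually_lt_of_limsup_lt h2 (by isBoundedDefault)
  have e3 : ∃ᶠ i in F, u i + v i ≤ liminf u F + limsup v F + ε := by
    refine (e1.and_eventually e2).mono ?_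
    rintro i ⟨h3, h4⟩
    calc u i + v i ≤ (liminf u F + ((ε / 2 : NNReal) : ℝ≥0∞)) + (limsup v F + ((ε / 2 : NNReal) : ℝ≥0∞)) :=
          add_le_add h3.le h4.le
      _ = liminf u F + limsup v F + (((ε / 2 : NNReal) : ℝ≥0∞) + ((ε / 2 : NNReal) : ℝ≥0∞)) := by ring
      _ = _ := by
          rw [← ENNReal.coe_add, add_halves]
  exact liminf_le_of_frequently_le e3 (by isBoundedDefault)

lemma exists_radius_of_eventually {P : ℝ → Prop} (h : ∀ᶠ r in 𝓝[<] (1:ℝ), P r) :
    ∃ r₀, 1/2 ≤ r₀ ∧ r₀ < 1 ∧ ∀ r, r₀ ≤ r → r < 1 → P r := by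
  obtain ⟨l, hl, hl2⟩ := mem_nhdsLT_iff_exists_Ioo_subset.mp h
  have hl' : l < 1 := hl
  refine ⟨max (1/2) ((l + 1) / 2), le_max_left _ _, ?_, ?_⟩
  · apply max_lt (by norm_num); linarith
  · intro r hr1 hr2
    apply hl2
    have := (le_max_right (1/2) ((l + 1) / 2)).trans hr1
    exact ⟨by linarith, hr2⟩

lemma tendsto_log_atTop : Tendsto (fun r : ℝ ↦ Real.log (1 / (1 - r))) (𝓝[<] 1) atTop := by
  apply Real.tendsto_log_atTop.comp
  have h1 : Tendsto (fun r : ℝ ↦ 1 - r) (𝓝[<] 1) (𝓝[>] 0) := by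
    rw [tendsto_nhdsWithin_iff]
    constructor
    · have : Tendsto (fun r : ℝ ↦ 1 - r) (𝓝 1) (𝓝 (1 - 1)) := (continuous_const.sub continuous_id).tendsto 1
      rw [sub_self] at this
      exact this.mono_left nhdsWithin_le_nhds
    · filter_upwards [self_mem_nhdsWithin] with r hr
      have : r < 1 := hr
      simp only [mem_Ioi]; linarith
  have h2 := tendsto_inv_nhdsGT_zero.comp h1
  apply h2.congr
  intro r
  simp only [Function.comp_apply, one_div]

lemma countBar_le {f : ℂ → ℂ} {r : ℝ} (hr1 : 1/2 ≤ r) (hr2 : r < 1) (hf : MeromorphicOn f (ball 0 1)) :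
    countBar f r ≤ charT f r + (poleMult f 0 : ℝ) * Real.log 2 := by
  have hfr : MeromorphicOn f (closedBall 0 r) := fun z hz ↦ hf z (closedBall_subset_ball hr2 hz)
  have hfin := finite_poleMult hfr
  set S := hfin.toFinset with hS
  have hmem : ∀ z, z ∈ S ↔ z ∈ closedBall (0:ℂ) r ∧ poleMult f z ≠ 0 := by
    intro z; rw [hS, Set.Finite.mem_toFinset]; rfl
  have h1 : ∀ z ∈ closedBall (0:ℂ) r, min 1 (poleMult f z) ≠ 0 → z ∈ S := by
    intro z hz h; rw [hmem]
    exact ⟨hz, fun h0 ↦ h (by rw [h0]; rfl)⟩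
  rw [charT, countBar, intCount_eq_sum (d := fun z ↦ min 1 (poleMult f z)) S h1 (fun z hz ↦ ((hmem z).mp hz).1),
    intCount_eq_sum (d := poleMult f) S (fun z hz h ↦ (hmem z).mpr ⟨hz, h⟩) (fun z hz ↦ ((hmem z).mp hz).1)]
  have e1 : ∑ z ∈ S, ((min 1 (poleMult f z) : ℕ) : ℝ) * Real.log (r * ‖z‖⁻¹) ≤
      ∑ z ∈ S, (poleMult f z : ℝ) * Real.log (r * ‖z‖⁻¹) := by
    apply Finset.sum_le_sum
    intro z hz
    apply mul_le_mul_of_nonneg_right _ (log_term_nonneg (by linarith) ((hmem z).mp hz).1)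
    exact_mod_cast min_le_right _ _
  have hlr : Real.log r ≤ 0 := Real.log_nonpos (by linarith) hr2.le
  have hl2 := neg_log_two_le hr1
  have e2 : ((min 1 (poleMult f 0) : ℕ) : ℝ) * Real.log r ≤ 0 :=
    mul_nonpos_of_nonneg_of_nonpos (Nat.cast_nonneg _) hlr
  have e3 : -((poleMult f 0 : ℝ) * Real.log 2) ≤ (poleMult f 0 : ℝ) * Real.log r := by
    have := mul_le_mul_of_nonneg_left hl2 (Nat.cast_nonneg (α := ℝ) (poleMult f 0))
    linarith
  have e4 := proxInf_nonneg f r
  linarith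

lemma order_ne_top_of_nonconst {f : ℂ → ℂ} (hf : MeromorphicOn f (ball 0 1))
    (hconst : ∀ c : ℂ, ¬ f =ᶠ[codiscreteWithin (ball (0:ℂ) 1)] fun _ ↦ c) :
    ∀ u ∈ ball (0:ℂ) 1, ∀ a : ℂ, meromorphicOrderAt (fun z ↦ f z - a) u ≠ ⊤ := by
  intro u hu a hcon
  apply hconst a
  have hfa : MeromorphicOn (fun z ↦ f z - a) (ball 0 1) := fun z hz ↦ (hf z hz).sub (MeromorphicAt.const _ _)
  have hall : ∀ y ∈ ball (0:ℂ) 1, meromorphicOrderAt (fun z ↦ f z - a) y = ⊤ := by
    intro y hy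
    by_contra hne
    exact hfa.meromorphicOrderAt_ne_top_of_isPreconnected (convex_ball (0:ℂ) 1).isPreconnected hy hu hne hcon
  rw [Filter.EventuallyEq, Filter.Eventually, mem_codiscreteWithin]
  intro x hx
  rw [Filter.disjoint_principal_right]
  filter_upwards [meromorphicOrderAt_eq_top_iff.mp (hall x hx)] with z hz
  simp only [mem_compl_iff, Set.mem_sdiff, Set.mem_ofPred_eq, not_and, not_not]
  intro _
  exact sub_eq_zero.mp hz

lemma finite_version {f : ℂ → ℂ} (hf : MeromorphicOn f (ball 0 1))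
    (hord : ∀ u ∈ ball (0:ℂ) 1, ∀ a : ℂ, meromorphicOrderAt (fun z ↦ f z - a) u ≠ ⊤)
    (hfin : growthOrder f ≠ ⊤) (hlam : lowerGrowth f ≠ 0) (J : Finset ℂ) {β : ℝ}
    (hβ : (growthOrder f).toReal + 1 < β) :
    ∑ a ∈ J, deficiency a f ≤ (1 + poleIndex f) * deficiency 0 (deriv f) + ENNReal.ofReal β * (lowerGrowth f)⁻¹ := by
  set ρ := (growthOrder f).toReal with hρ
  have hρ0 : 0 ≤ ρ := ENNReal.toReal_nonneg
  set L : ℝ → ℝ := fun r ↦ Real.log (1 / (1 - r)) with hL
  have hLt : Tendsto L (𝓝[<] 1) atTop := tendsto_log_atTop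
  have hLpos : ∀ᶠ r in 𝓝[<] (1:ℝ), 0 < L r := hLt.eventually_gt_atTop 0
  -- parameters
  set p : ℝ := (ρ + β - 1) / 2 with hp
  have hρp : ρ < p := by rw [hp]; linarith
  have hp0 : 0 < p := by linarith
  have hpβ : p + 1 < β := by rw [hp]; linarith
  have hβ0 : 0 < β := by linarith
  set α : ℝ := (p + 1) / β with hα
  have hα0 : 0 < α := by positivity
  have hα1 : α < 1 := by rw [hα, div_lt_one hβ0]; exact hpβ
  have hαβ : α⁻¹ * (p + 1) = β := by rw [hα]; field_simp
  -- growth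
  have hg1 : ∀ᶠ r in 𝓝[<] (1:ℝ), charT f r ≤ 1 * (1 - r) ^ (-p) := by
    have h1 : growthOrder f < ENNReal.ofReal p := by
      rw [← ENNReal.ofReal_toReal hfin]
      exact (ENNReal.ofReal_lt_ofReal_iff hp0).mpr hρp
    have h2 := eventually_lt_of_limsup_lt h1 (by isBoundedDefault)
    filter_upwards [h2, hLpos, self_mem_nhdsWithin] with r h3 h4 h5
    have hr : r < 1 := h5
    have h6 : log⁺ (charT f r) / L r < p := (ENNReal.ofReal_lt_ofReal_iff hp0).mp h3
    rw [div_lt_iff₀ h4] at h6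
    rw [one_mul]
    have h7 : (1 - r) ^ (-p) = Real.exp (p * L r) := by
      rw [Real.rpow_def_of_pos (by linarith), hL]
      simp only [one_div, Real.log_inv]
      congr 1; ring
    rw [h7]
    rcases le_or_gt (charT f r) 0 with h8 | h8
    · exact h8.trans (Real.exp_pos _).le
    · rw [← Real.log_le_iff_le_exp h8]
      exact (le_max_right _ _ : Real.log (charT f r) ≤ log⁺ (charT f r)).trans h6.le
  obtain ⟨r₀, hr₀, hr₀1, hg2⟩ := exists_radius_of_eventually hg1
  obtain ⟨C, hC0, hC⟩ := main_ineq (J := J) hf hord hα0 hα1 zero_le_one hp0.le hr₀ hg2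
  -- the characteristic tends to infinity
  have hT : Tendsto (charT f) (𝓝[<] 1) atTop := by
    obtain ⟨q, hq0, hq⟩ : ∃ q : ℝ, 0 < q ∧ ENNReal.ofReal q < lowerGrowth f := by
      obtain ⟨q, hq0, hq⟩ := ENNReal.lt_iff_exists_real_btwn.mp (pos_iff_ne_zero.mpr hlam)
      refine ⟨q, ?_, hq.2⟩
      exact ENNReal.ofReal_pos.mp hq.1
    have h2 := eventually_lt_of_lt_liminf hq (by isBoundedDefault)
    have h3 : ∀ᶠ r in 𝓝[<] (1:ℝ), q * L r ≤ charT f r := by
      filter_upwards [h2, hLpos] with r h4 h5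
      have h6 : q < charT f r / L r := (ENNReal.ofReal_lt_ofReal_iff_of_nonneg hq0.le).mp h4
      rw [lt_div_iff₀ h5] at h6
      exact h6.le
    exact tendsto_atTop_mono' _ h3 (hLt.const_mul_atTop hq0)
  have hTpos : ∀ᶠ r in 𝓝[<] (1:ℝ), 0 < charT f r := hT.eventually_gt_atTop 0
  have hTlog : ∀ᶠ r in 𝓝[<] (1:ℝ), Real.log 2 < charT f r := hT.eventually_gt_atTop _
  have hhalf : ∀ᶠ r in 𝓝[<] (1:ℝ), 1/2 ≤ r ∧ r < 1 ∧ r₀ ≤ r := by
    have h1 : ∀ᶠ r in 𝓝[<] (1:ℝ), r₀ < r := by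
      apply Filter.Eventually.filter_mono nhdsWithin_le_nhds
      exact eventually_gt_nhds hr₀1
    filter_upwards [h1, self_mem_nhdsWithin] with r h2 h3
    exact ⟨by linarith, h3, h2.le⟩
  -- the terms
  set θ : ℝ → ℝ≥0∞ := fun r ↦ ENNReal.ofReal (prox 0 (deriv f) r / charT (deriv f) r) with hθ
  set κ : ℝ → ℝ≥0∞ := fun r ↦ ENNReal.ofReal (countBar f r / (1 + charT f r)) with hκ
  set τ : ℝ → ℝ≥0∞ := fun r ↦ ENNReal.ofReal ((1 + charT f r) / charT f r) with hτ
  set W : ℝ → ℝ≥0∞ := fun r ↦ ENNReal.ofReal β * ENNReal.ofReal (L r / charT f r) +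
    ENNReal.ofReal (C / charT f r) with hW
  set V : ℝ → ℝ≥0∞ := (fun r ↦ 1 + κ r) * τ with hV
  have hmain : ∀ᶠ r in 𝓝[<] (1:ℝ), ∑ a ∈ J, ENNReal.ofReal (prox a f r / charT f r) ≤ (V * θ) r + W r := by
    filter_upwards [hTpos, hTlog, hhalf, hLpos] with r hT0 hTl hr hLr
    have hcb : -Real.log 2 ≤ countBar f r := by
      have h1 := intCount_ge (d := fun z ↦ min 1 (poleMult f z)) hr.1
      have h2 : ((min 1 (poleMult f 0) : ℕ) : ℝ) ≤ 1 := by exact_mod_cast min_le_left _ _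
      have h3 : 0 ≤ Real.log 2 := Real.log_nonneg (by norm_num)
      have h4 : ((min 1 (poleMult f 0) : ℕ) : ℝ) * Real.log 2 ≤ 1 * Real.log 2 :=
        mul_le_mul_of_nonneg_right h2 h3
      rw [countBar]
      linarith
    have hD : 0 ≤ charT f r + countBar f r := by linarith
    have h1 := hC r hr.2.2 hr.2.1 hD
    set t := charT f r with ht
    set x := prox 0 (deriv f) r / charT (deriv f) r with hx
    set y := countBar f r / (1 + t) with hy
    have hm0 : 0 ≤ max x 0 := le_max_right _ _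
    rw [← ENNReal.ofReal_sum_of_nonneg (fun a _ ↦ div_nonneg (prox_nonneg a f r) hT0.le), ← Finset.sum_div]
    have h2 : (∑ a ∈ J, prox a f r) / t ≤ ((1 + max y 0) * ((1 + t) / t)) * max x 0 + (β * (L r / t) + C / t) := by
      have h3 : (∑ a ∈ J, prox a f r) / t ≤ (max x 0 * (t + countBar f r)
        + α⁻¹ * ((p + 1) * Real.log (1 / (1 - r))) + C) / t := by gcongr
      refine h3.trans ?_
      have h4 : α⁻¹ * ((p + 1) * Real.log (1 / (1 - r))) = β * L r := by
        rw [← mul_assoc, hαβ]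
      rw [h4]
      have h5 : (t + countBar f r) / t ≤ (1 + max y 0) * ((1 + t) / t) := by
        rw [← mul_div_assoc]
        gcongr
        have h6 : countBar f r ≤ max y 0 * (1 + t) := by
          calc countBar f r = y * (1 + t) := by rw [hy]; field_simp
            _ ≤ _ := by gcongr; exact le_max_left _ _
        linarith
      calc (max x 0 * (t + countBar f r) + β * L r + C) / t
          = (t + countBar f r) / t * max x 0 + (β * (L r / t) + C / t) := by
            field_simp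
            ring
        _ ≤ _ := by gcongr
    refine (ENNReal.ofReal_le_ofReal h2).trans ?_
    have n1 : 0 ≤ 1 + max y 0 := by positivity
    have n2 : 0 ≤ (1 + t) / t := by positivity
    have n3 : 0 ≤ β * (L r / t) := by positivity
    have n4 : 0 ≤ C / t := by positivity
    rw [ENNReal.ofReal_add (by positivity) (by positivity), ENNReal.ofReal_mul (by positivity),
      ENNReal.ofReal_mul n1, ENNReal.ofReal_add n3 n4, ENNReal.ofReal_mul hβ0.le,
      ENNReal.ofReal_add zero_le_one (le_max_right _ _), ENNReal.ofReal_one]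
    have m1 : ENNReal.ofReal (max y 0) = κ r := by
      rw [hκ]
      rcases le_total y 0 with h | h
      · rw [max_eq_right h, ENNReal.ofReal_zero]; exact (ENNReal.ofReal_of_nonpos h).symm
      · rw [max_eq_left h]
    have m2 : ENNReal.ofReal (max x 0) = θ r := by
      rw [hθ]
      rcases le_total x 0 with h | h
      · rw [max_eq_right h, ENNReal.ofReal_zero]; exact (ENNReal.ofReal_of_nonpos h).symm
      · rw [max_eq_left h]
    rw [m1, m2]
    exact le_rfl
  -- limits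
  have hτ1 : Tendsto τ (𝓝[<] 1) (𝓝 1) := by
    have h1 : Tendsto (fun r ↦ (charT f r)⁻¹) (𝓝[<] 1) (𝓝 0) := tendsto_inv_atTop_zero.comp hT
    have h2 : Tendsto (fun r ↦ (charT f r)⁻¹ + 1) (𝓝[<] 1) (𝓝 (0 + 1)) := h1.add_const 1
    rw [zero_add] at h2
    have h3 : Tendsto (fun r ↦ ENNReal.ofReal ((charT f r)⁻¹ + 1)) (𝓝[<] 1) (𝓝 (ENNReal.ofReal 1)) :=
      ENNReal.tendsto_ofReal h2
    rw [ENNReal.ofReal_one] at h3
    apply h3.congr'
    filter_upwards [hTpos] with r hr
    rw [hτ]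
    simp only
    congr 1
    field_simp
  have hVle : limsup V (𝓝[<] 1) ≤ 1 + poleIndex f := by
    have h1 : limsup (fun r ↦ 1 + κ r) (𝓝[<] 1) = 1 + poleIndex f :=
      limsup_const_add (𝓝[<] (1:ℝ)) κ 1 (by isBoundedDefault) (by isBoundedDefault)
    have h2 : limsup τ (𝓝[<] 1) = 1 := hτ1.limsup_eq
    have h3 := ENNReal.limsup_mul_le' (u := fun r ↦ 1 + κ r) (v := τ) (f := 𝓝[<] (1:ℝ))
      (Or.inr (by rw [h2]; exact ENNReal.one_ne_top)) (Or.inr (by rw [h2]; exact one_ne_zero))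
    rw [h1, h2, mul_one] at h3
    exact h3
  have hkfin : poleIndex f ≠ ⊤ := by
    set P : ℝ := (poleMult f 0 : ℝ) * Real.log 2 with hP
    have hP0 : 0 ≤ P := by
      have h3 : 0 ≤ Real.log 2 := Real.log_nonneg (by norm_num)
      positivity
    have h1 : ∀ᶠ r in 𝓝[<] (1:ℝ), κ r ≤ ENNReal.ofReal (1 + P) := by
      filter_upwards [hTpos, hhalf] with r hT0 hr
      apply ENNReal.ofReal_le_ofReal
      rw [div_le_iff₀ (by linarith)]
      have := countBar_le hr.1 hr.2.1 hf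
      nlinarith
    have h2 : poleIndex f ≤ ENNReal.ofReal (1 + P) := limsup_le_of_le (by isBoundedDefault) h1
    exact ne_top_of_le_ne_top ENNReal.ofReal_ne_top h2
  have hVne0 : limsup V (𝓝[<] 1) ≠ 0 := by
    have h1 : ∃ᶠ r in 𝓝[<] (1:ℝ), 1 ≤ V r := by
      apply Filter.Eventually.frequently
      filter_upwards [hTpos] with r hT0
      have h2 : 1 ≤ τ r := by
        rw [hτ]
        simp only
        rw [ENNReal.one_le_ofReal, le_div_iff₀ hT0]
        linarith
      rw [hV, Pi.mul_apply]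
      calc (1 : ℝ≥0∞) = 1 * 1 := (one_mul 1).symm
        _ ≤ (1 + κ r) * τ r := mul_le_mul' (le_self_add) h2
    have h3 : 1 ≤ limsup V (𝓝[<] 1) := le_limsup_of_frequently_le h1 (by isBoundedDefault)
    intro h4
    rw [h4] at h3
    exact absurd h3 (by norm_num)
  have hWle : limsup W (𝓝[<] 1) ≤ ENNReal.ofReal β * (lowerGrowth f)⁻¹ := by
    have h1 : Tendsto (fun r ↦ ENNReal.ofReal (C / charT f r)) (𝓝[<] 1) (𝓝 0) := by
      have h2 : Tendsto (fun r ↦ C / charT f r) (𝓝[<] 1) (𝓝 0) := hT.const_div_atTop C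
      have h3 := ENNReal.tendsto_ofReal h2
      rwa [ENNReal.ofReal_zero] at h3
    have h2 := ENNReal.limsup_add_of_right_tendsto_zero h1
      (fun r ↦ ENNReal.ofReal β * ENNReal.ofReal (L r / charT f r))
    have h3 : W = (fun r ↦ ENNReal.ofReal β * ENNReal.ofReal (L r / charT f r)) +
      (fun r ↦ ENNReal.ofReal (C / charT f r)) := rfl
    rw [h3, h2, ENNReal.limsup_const_mul_of_ne_top ENNReal.ofReal_ne_top, lowerGrowth, ENNReal.inv_liminf]
    apply mul_le_mul_of_nonneg_left _ (by positivity)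
    apply limsup_le_limsup _ (by isBoundedDefault) (by isBoundedDefault)
    filter_upwards [hTpos, hLpos] with r hT0 hLr
    rw [← ENNReal.ofReal_inv_of_pos (by positivity), inv_div]
  have h1 : ∑ a ∈ J, deficiency a f ≤ liminf (fun r ↦ (V * θ) r + W r) (𝓝[<] 1) :=
    (sum_liminf_le J _).trans (liminf_le_liminf hmain (by isBoundedDefault) (by isBoundedDefault))
  refine h1.trans ((liminf_add_le_add_limsup _ _).trans (add_le_add ?_ hWle))
  have h2 := ENNReal.liminf_mul_le (u := V) (v := θ) (f := 𝓝[<] (1:ℝ)) (Or.inl hVne0)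
    (Or.inl (ne_top_of_le_ne_top (by simpa using hkfin) hVle))
  refine h2.trans ?_
  exact mul_le_mul' hVle le_rfl

/-- **Main theorem.** Every non-constant meromorphic function `f` on the unit disc, of finite order,
satisfies `∑_a δ(a,f) ≤ (1 + k(f)) δ(0,f') + (ρ + 1) / λ(f)`. All quantities have values in `[0,∞]`,
and `(ρ + 1) / 0 = ∞`. -/
theorem result (f : ℂ → ℂ) (hf : MeromorphicOn f (ball 0 1))
    (hconst : ∀ c : ℂ, ¬ f =ᶠ[codiscreteWithin (ball (0:ℂ) 1)] fun _ ↦ c)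
    (hfin : growthOrder f ≠ ⊤) :
    ∑' a : ℂ, deficiency a f ≤
      (1 + poleIndex f) * deficiency 0 (deriv f) + (growthOrder f + 1) / lowerGrowth f := by
  have hord := order_ne_top_of_nonconst hf hconst
  rcases eq_or_ne (lowerGrowth f) 0 with h0 | h0
  · rw [h0, ENNReal.div_zero (by simp), add_top]
    exact le_top
  rw [ENNReal.tsum_eq_iSup_sum]
  apply iSup_le
  intro J
  have key : ∀ β : ℝ, (growthOrder f).toReal + 1 < β → ∑ a ∈ J, deficiency a f ≤
      (1 + poleIndex f) * deficiency 0 (deriv f) + ENNReal.ofReal β * (lowerGrowth f)⁻¹ :=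
    fun β hβ ↦ finite_version hf hord hfin h0 J hβ
  have hlim : Tendsto (fun β : ℝ ↦ (1 + poleIndex f) * deficiency 0 (deriv f) + ENNReal.ofReal β * (lowerGrowth f)⁻¹)
      (𝓝[>] ((growthOrder f).toReal + 1)) (𝓝 ((1 + poleIndex f) * deficiency 0 (deriv f) +
        ENNReal.ofReal ((growthOrder f).toReal + 1) * (lowerGrowth f)⁻¹)) := by
    apply Tendsto.const_add
    apply ENNReal.Tendsto.mul_const _ (Or.inr (ENNReal.inv_ne_top.mpr h0))
    apply ENNReal.tendsto_ofReal
    exact tendsto_id.mono_left nhdsWithin_le_nhds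
  have h1 := ge_of_tendsto hlim (by
    filter_upwards [self_mem_nhdsWithin] with β hβ
    exact key β hβ)
  refine h1.trans (le_of_eq ?_)
  rw [ENNReal.div_eq_inv_mul, mul_comm, ENNReal.ofReal_add ENNReal.toReal_nonneg zero_le_one,
    ENNReal.ofReal_toReal hfin, ENNReal.ofReal_one]
  ring

end Part_ND6

end Pool.Agent.Results.MP_99dc29_an.SheaSons
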